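import Pool.Agent.Y329.NS.Stm

/-!
# Project NS: the final statement from the reduction and the recurrence for the reduced data
-/

set_option autoImplicit false

namespace Pool.Agent.Y329.NS

open Topology
open scoped Manifold ContDiff

theorem final (hRED : S_RED) (hTRG : S_TRG) (hOE : S_OE) :
    ∀ (E : Type) [NormedAddCommGroup E] [NormedSpace ℝ E] [FiniteDimensional ℝ E]
    (G : Type) [Group G] [TopologicalSpace G] [ChartedSpace E G]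
    [LieGroup (modelWithCornersSelf ℝ E) ((⊤ : ℕ∞) : WithTop ℕ∞) G] [Group.IsNilpotent G]
    (Γ : Subgroup G), CompactSpace (G ⧸ Γ) →
    ∀ g : G, (∀ m : ℕ, 0 < m → ∀ x : G ⧸ Γ,
        Dense (Set.range (fun n : ℤ => (g ^ m) ^ n • x))) →
    ∀ (d : ℕ) (p : Fin d → Polynomial ℤ), (∀ i, (p i).eval 0 = 0) →
    ∀ k : ℕ, 0 < k → ∀ j : ℕ, j < k →
    ∀ U : Set (G ⧸ Γ), IsOpen U → U.Nonempty →
    ∃ n : ℕ, 0 < n ∧ ∃ x ∈ U, ∀ i, g ^ ((p i).eval ((k : ℤ) * (n : ℤ) + (j : ℤ))) • x ∈ U := by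
  intro E _ _ _ G _ _ _ _ _ Γ hcomp g hmin d p hp k hk j hj U hU hUne
  have htop : IsTopologicalGroup G := topologicalGroup_of_lieGroup 𝓘(ℝ, E) ∞
  obtain ⟨N, e, M, H, Gm, φ, hR, hφc, hφM, hφG⟩ := hRED E G Γ hcomp g hmin
  have hMH : uexp M ∈ H := by
    rw [hR.memH]
    refine ⟨0, e.zero_mem, 1, ?_⟩
    rw [uexp_zero, one_mul, Int.cast_one, one_smul]
  -- the base point
  obtain ⟨_, hl0, ⟨l0, rfl⟩⟩ := (hmin 1 one_pos (QuotientGroup.mk (1 : G))).inter_open_nonempty U hU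
    hUne
  rw [pow_one] at hl0
  -- the open set of matrices
  let W : Set H := {h | g ^ l0 • (QuotientGroup.mk (φ h) : G ⧸ Γ) ∈ U}
  have hW : IsOpen W := by
    refine hU.preimage ?_
    exact (continuous_const_smul (g ^ l0)).comp (QuotientGroup.continuous_mk.comp hφc)
  have h1W : (1 : H) ∈ W := by
    show g ^ l0 • (QuotientGroup.mk (φ 1) : G ⧸ Γ) ∈ U
    rw [map_one]
    exact hl0
  have htri := (hOE N e M H hR.e_le hR.M_mem hR.br hR.brM hR.M_not hR.memH).1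
  have hind := Pool.Agent.TH444.NB.inducing_val H (fun h hh =>
    Pool.Agent.TH91.LG.J1261.tri_of_mem (htri h hh))
  obtain ⟨V, hV, hVW⟩ := hind.isOpen_iff.1 hW
  have h1V : (1 : Mat N) ∈ V := by
    have : (1 : H) ∈ (fun k : H => ((k : (Mat N)ˣ) : Mat N)) ⁻¹' V := by
      rw [hVW]
      exact h1W
    exact this
  obtain ⟨n, hn, l, ⟨γ, hγ, hγV⟩, hi⟩ := hTRG N e M H Gm hR d p hp k hk j hj V hV h1V
  -- translation
  have key : ∀ (a : ℤ) (γ : (Mat N)ˣ), γ ∈ Gm → ((((uexp M) ^ a * γ : (Mat N)ˣ)) : Mat N) ∈ V →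
      g ^ (l0 + a) • (QuotientGroup.mk (1 : G) : G ⧸ Γ) ∈ U := by
    intro a γ hγ hV'
    have hmem : (uexp M) ^ a * γ ∈ H := H.mul_mem (H.zpow_mem hMH a) (hR.le hγ)
    have h1 : (⟨_, hmem⟩ : H) ∈ W := by
      rw [← hVW]
      exact hV'
    have h2 : (⟨_, hmem⟩ : H) = (⟨uexp M, hMH⟩ : H) ^ a * ⟨γ, hR.le hγ⟩ := by
      apply Subtype.ext
      rfl
    have h3 : g ^ l0 • (QuotientGroup.mk (φ (⟨_, hmem⟩ : H)) : G ⧸ Γ) ∈ U := h1
    rw [h2, map_mul, map_zpow, hφM ⟨uexp M, hMH⟩ rfl] at h3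
    have h4 : (QuotientGroup.mk (g ^ a * φ ⟨γ, hR.le hγ⟩) : G ⧸ Γ) =
        g ^ a • (QuotientGroup.mk (1 : G) : G ⧸ Γ) := by
      have h5 : φ ⟨γ, hR.le hγ⟩ ∈ Γ := (hφG ⟨γ, hR.le hγ⟩).1 hγ
      show _ = (QuotientGroup.mk (g ^ a * 1) : G ⧸ Γ)
      rw [QuotientGroup.eq, mul_one, mul_inv_rev, inv_mul_cancel_right]
      exact Γ.inv_mem h5
    rw [h4, smul_smul, ← zpow_add] at h3
    exact h3
  refine ⟨n, hn, g ^ (l0 + l) • (QuotientGroup.mk (1 : G) : G ⧸ Γ), key l γ hγ hγV, fun i => ?_⟩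
  obtain ⟨γ', hγ', hγV'⟩ := hi i
  have h1 := key _ γ' hγ' hγV'
  rw [smul_smul, ← zpow_add]
  convert h1 using 3
  ring

end Pool.Agent.Y329.NS
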