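import Pool.Agent.Y329.NS.JobOE

/-!
# Project NS, jobs B, DN1, DN2, DN3
-/

set_option autoImplicit false

namespace Pool.Agent.Y329.NS

open Topology Pool.Agent.TH91.NB

section

variable {N : ℕ} {e : Submodule ℝ (Mat N)} {M : Mat N} {H Gm : Subgroup (Mat N)ˣ}

theorem Red.lie (hR : Red e M H Gm) : LieSub (Lu e M) := lie_Lu hR.e_le hR.M_mem hR.br hR.brM

theorem Red.idl (hR : Red e M H Gm) : Idl (Lu e M) e := idl_Lu hR.br hR.brM

theorem Red.lieE (hR : Red e M H Gm) : LieSub e := ⟨hR.e_le, hR.br⟩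

theorem Red.MH (hR : Red e M H Gm) : uexp M ∈ H := by
  rw [hR.memH]
  refine ⟨0, e.zero_mem, 1, ?_⟩
  rw [uexp_zero, one_mul, Int.cast_one, one_smul]

theorem Red.eH (hR : Red e M H Gm) {X : Mat N} (hX : X ∈ e) : uexp X ∈ H := by
  rw [hR.memH]
  refine ⟨X, hX, 0, ?_⟩
  rw [Int.cast_zero, zero_smul, uexp_zero, mul_one]

/-- a form of part (3) of `S_OE` -/
theorem Red.near (hOE : S_OE) (hR : Red e M H Gm) {X : Mat N} (hX : X ∈ e) {T : Set (Mat N)}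
    (hT : IsOpen T) (hXT : X ∈ T) : ∃ O : Set (Mat N), IsOpen O ∧
      ((uexp X : (Mat N)ˣ) : Mat N) ∈ O ∧
      ∀ h ∈ H, ((h : (Mat N)ˣ) : Mat N) ∈ O → ∃ Y ∈ e, h = uexp Y ∧ Y ∈ T := by
  obtain ⟨-, -, h3⟩ := hOE N e M H hR.e_le hR.M_mem hR.br hR.brM hR.M_not hR.memH
  obtain ⟨O, hO, hXO, hall⟩ := h3 X hX 1 one_pos
  refine ⟨O ∩ J887.Lg N N ⁻¹' T, hO.inter (hT.preimage (J887.Lg_continuous N)), ⟨hXO, ?_⟩, ?_⟩
  · show J887.Lg N N _ ∈ T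
    rw [lg_uexp (hR.e_le hX)]
    exact hXT
  · rintro h hh ⟨hO1, hO2⟩
    obtain ⟨Y, hY, h1, -⟩ := hall h hh hO1
    refine ⟨Y, hY, h1, ?_⟩
    have h2 : J887.Lg N N ((h : (Mat N)ˣ) : Mat N) ∈ T := hO2
    rwa [h1, lg_uexp (hR.e_le hY)] at h2

theorem Red.dense' (hOE : S_OE) (hR : Red e M H Gm) {r : ℕ} (hr : 0 < r) {X : Mat N} (hX : X ∈ e)
    {T : Set (Mat N)} (hT : IsOpen T) (hXT : X ∈ T) :
    ∃ Y ∈ e, Y ∈ T ∧ ∃ n : ℤ, ∃ γ ∈ Gm, uexp Y = (uexp M) ^ ((r : ℤ) * n) * γ := by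
  obtain ⟨O, hO, hXO, hall⟩ := hR.near hOE hX hT hXT
  obtain ⟨n, γ, hγ, hO1⟩ := hR.dense r hr (uexp X) (hR.eH hX) O hO hXO
  obtain ⟨Y, hY, h1, hYT⟩ := hall _ (H.mul_mem (H.zpow_mem hR.MH _) (hR.le hγ)) hO1
  exact ⟨Y, hY, hYT, n, γ, hγ, h1.symm⟩

end

theorem doneDN1 : S_DN1 := by
  intro N e M H Gm hR
  obtain ⟨X, hX, γ, hγ, h⟩ := hR.trans _ hR.MH
  have h1 : γ = uexp (-X) * uexp M := by
    rw [h, ← uexp_inv, inv_mul_cancel_left]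
  obtain ⟨j, hj, h2⟩ := uexp_mul hR.lie hR.idl ((Lu e M).neg_mem (e_le_Lu hX)) M_mem_Lu
    (br_Lu hR.br hR.brM _ ((Lu e M).neg_mem (e_le_Lu hX)) _ M_mem_Lu)
  refine ⟨X - j, e.sub_mem hX hj, ?_⟩
  have e1 : M - (X - j) = -X + M + j := by abel
  rw [e1, ← h2, ← h1]
  exact hγ

theorem doneDN2 (hOE : S_OE) : S_DN2 := by
  intro N e M H Gm hR X hX
  rw [mem_closure_iff]
  intro T hT hXT
  obtain ⟨Y, hY, hYT, n, γ, hγ, h⟩ := hR.dense' hOE one_pos hX hT hXT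
  rw [Nat.cast_one, one_mul] at h
  exact ⟨Y, hYT, hY, n, γ, hγ, h⟩

/-- `exp (τ + w) = exp f exp τ` for `w` in an ideal -/
theorem uexp_left' {m : ℕ} {L J : Submodule ℝ (Mat m)} (hL : LieSub L) (hJ : Idl L J)
    {τ w : Mat m} (hτ : τ ∈ L) (hw : w ∈ J) :
    ∃ f ∈ J, uexp (τ + w) = uexp f * uexp τ := by
  obtain ⟨j, hj, h⟩ := uexp_mul hL hJ (L.add_mem hτ (hJ.le hw)) (L.neg_mem hτ) (by
    have e : (τ + w) * -τ - -τ * (τ + w) = τ * w - w * τ := by noncomm_ring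
    rw [e]
    exact hJ.br τ hτ w hw)
  refine ⟨w + j, J.add_mem hw hj, ?_⟩
  have e : τ + w + -τ + j = w + j := by abel
  rw [e] at h
  rw [← h, ← uexp_inv, inv_mul_cancel_right]

theorem doneDN3 (hOE : S_OE) : S_DN3 := by
  intro N e M H Gm hR Y₀ hY₀ hMg r hr X hX
  rw [mem_closure_iff]
  intro T hT hXT
  obtain ⟨Y, hY, hYT, n, γ, hγ, h⟩ := hR.dense' hOE hr hX hT hXT
  refine ⟨Y, hYT, n, ?_⟩
  have hL := hR.lie
  have hI := hR.idl
  have hI2 : Idl (Lu e M) (brk (Lu e M) e) := hI.brk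
  have hMS := hR.M_mem
  have hMgL : M - Y₀ ∈ Lu e M := (Lu e M).sub_mem M_mem_Lu (e_le_Lu hY₀)
  have hMgS : M - Y₀ ∈ Su N := hL.le hMgL
  -- (i)
  obtain ⟨Z, hZ, l, hγl⟩ := (hR.memH γ).1 (hR.le hγ)
  obtain ⟨f, hf, h1⟩ := uexp_left' hL hI ((Lu e M).smul_mem (l : ℝ) hMgL)
    (e.smul_mem (l : ℝ) hY₀)
  have e1 : (l : ℝ) • (M - Y₀) + (l : ℝ) • Y₀ = (l : ℝ) • M := by
    rw [smul_sub]
    abel
  rw [e1] at h1
  obtain ⟨X₁, hX₁, h2⟩ := uexp_mul' hR.lieE hZ hf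
  have hγ1 : γ = uexp X₁ * uexp ((l : ℝ) • (M - Y₀)) := by
    rw [hγl, h1, ← mul_assoc, h2]
  have hX₁G : uexp X₁ ∈ Gm := by
    have h3 : uexp X₁ = γ * ((uexp (M - Y₀)) ^ l)⁻¹ := by
      rw [hγ1, uexp_zpow hMgS, mul_inv_cancel_right]
    rw [h3]
    exact Gm.mul_mem hγ (Gm.inv_mem (Gm.zpow_mem hMg l))
  refine ⟨X₁, hX₁, hX₁G, ?_⟩
  -- (ii)
  set c : ℝ := (((r : ℤ) * n : ℤ) : ℝ) with hc
  have hcM : c • M ∈ Lu e M := (Lu e M).smul_mem c M_mem_Lu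
  have hcMg : c • (M - Y₀) ∈ Lu e M := (Lu e M).smul_mem c hMgL
  obtain ⟨j, hj, h3⟩ := uexp_mul hL hI2 hcM ((Lu e M).neg_mem hcMg) (by
    have e2 : c • M * -(c • (M - Y₀)) - -(c • (M - Y₀)) * c • M =
        (c * c) • (M * Y₀ - Y₀ * M) := by
      rw [mul_neg, neg_mul, sub_neg_eq_add, smul_mul_smul_comm, smul_mul_smul_comm, ← smul_neg,
        ← smul_add]
      congr 1
      noncomm_ring
    rw [e2]
    exact Submodule.smul_mem _ _ (brk_mem M_mem_Lu hY₀))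
  have e3 : c • M + -(c • (M - Y₀)) + j = c • Y₀ + j := by
    rw [smul_sub]
    abel
  rw [e3, ← uexp_inv] at h3
  have hje : j ∈ e := hI.brk_le hj
  -- (iii)
  have hbr1 : c • (M - Y₀) * X₁ - X₁ * c • (M - Y₀) ∈ brk (Lu e M) e := brk_mem hcMg hX₁
  obtain ⟨j', hj', h4⟩ := uexp_conj hL hI2 hcMg (e_le_Lu hX₁)
    (hI2.br _ hcMg _ hbr1)
  -- (iv)
  set w₂ := c • (M - Y₀) * X₁ - X₁ * c • (M - Y₀) + j' with hw₂
  have hw₂m : w₂ ∈ brk (Lu e M) e := Submodule.add_mem _ hbr1 hj'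
  have hw₂e : w₂ ∈ e := hI.brk_le hw₂m
  have e4 : X₁ + (c • (M - Y₀) * X₁ - X₁ * c • (M - Y₀)) + j' = X₁ + w₂ := by
    rw [hw₂, add_assoc]
  rw [e4] at h4
  have hx1 : c • Y₀ + j ∈ e := e.add_mem (e.smul_mem c hY₀) hje
  have hx2 : X₁ + w₂ ∈ e := e.add_mem hX₁ hw₂e
  obtain ⟨j'', hj'', h5⟩ := uexp_mul hL hI2 (e_le_Lu hx1) (e_le_Lu hx2)
    (brk_mem (e_le_Lu hx1) hx2)
  have hsum : c • Y₀ + j + (X₁ + w₂) + j'' ∈ e :=
    e.add_mem (e.add_mem hx1 hx2) (hI.brk_le hj'')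
  -- the formula
  have hmain : uexp Y = uexp (c • Y₀ + j + (X₁ + w₂) + j'') *
      uexp ((c + l) • (M - Y₀)) := by
    have h6 : uexp ((c + l) • (M - Y₀)) =
        uexp (c • (M - Y₀)) * uexp ((l : ℝ) • (M - Y₀)) := by
      rw [add_smul, uexp_add (Submodule.smul_mem _ _ hMgS) (Submodule.smul_mem _ _ hMgS)]
      rw [smul_mul_smul_comm, smul_mul_smul_comm, mul_comm c]
    have h7 : (uexp M) ^ ((r : ℤ) * n) = uexp (c • M) := by
      rw [uexp_zpow hMS]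
    rw [h, h7, hγ1, h6, ← h5, ← h4, ← h3, ← uexp_inv]
    group
  -- (v)
  have hW : ∃ W ∈ e, uexp ((c + l) • (M - Y₀)) = uexp W := by
    obtain ⟨W, hW, h6⟩ := uexp_mul' hR.lieE (e.neg_mem hsum) hY
    refine ⟨W, hW, ?_⟩
    rw [← h6, hmain, ← uexp_inv, inv_mul_cancel_left]
  obtain ⟨W, hW, h6⟩ := hW
  have h7 : (c + l) • (M - Y₀) = W :=
    uexp_inj (Submodule.smul_mem _ _ hMgS) (hR.e_le hW) h6
  have hcl0 : c + l = 0 := by
    by_contra hne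
    apply hR.M_not
    have h8 : M = (c + l)⁻¹ • W + Y₀ := by
      rw [← h7, inv_smul_smul₀ hne]
      abel
    rw [h8]
    exact e.add_mem (e.smul_mem _ hW) hY₀
  rw [hcl0, zero_smul, uexp_zero, mul_one] at hmain
  have h8 := uexp_inj (hR.e_le hY) (hR.e_le hsum) hmain
  refine ⟨j + w₂ + j'', ?_, ?_⟩
  · exact Submodule.add_mem _ (Submodule.add_mem _ hj hw₂m) hj''
  · rw [h8]
    abel

theorem doneB (hOE : S_OE) : S_B := by
  intro N e M H Gm hR X hX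
  have hcomp := hR.comp
  let T : ℕ → Set (Mat N) := fun R => {Z | ∀ i j, |Z i j| < R}
  have hTo : ∀ R, IsOpen (T R) := by
    intro R
    have h1 : T R = ⋂ i, ⋂ j, {Z : Mat N | |Z i j| < R} := by
      ext Z
      simp [T]
    rw [h1]
    refine isOpen_iInter_of_finite fun i => isOpen_iInter_of_finite fun j => ?_
    exact isOpen_lt (continuous_id.matrix_elem i j).abs continuous_const
  let OR : ℕ → Set H := fun R => {h | ∃ Y ∈ e, Y ∈ T R ∧ ∃ γ ∈ Gm, (h : (Mat N)ˣ) = uexp Y * γ}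
  have hORo : ∀ R, IsOpen (OR R) := by
    intro R
    rw [isOpen_iff_mem_nhds]
    rintro h ⟨Y, hY, hYT, γ, hγ, hh⟩
    obtain ⟨O, hO, hYO, hall⟩ := hR.near hOE hY (hTo R) hYT
    have hc : Continuous fun h' : H => (((h' : (Mat N)ˣ) * γ⁻¹ : (Mat N)ˣ) : Mat N) :=
      Units.continuous_val.comp (continuous_subtype_val.mul continuous_const)
    have h4 : (fun h' : H => (((h' : (Mat N)ˣ) * γ⁻¹ : (Mat N)ˣ) : Mat N)) ⁻¹' O ∈ 𝓝 h := by
      refine (hO.preimage hc).mem_nhds ?_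
      show (((h : (Mat N)ˣ) * γ⁻¹ : (Mat N)ˣ) : Mat N) ∈ O
      rw [hh, mul_inv_cancel_right]
      exact hYO
    refine Filter.mem_of_superset h4 ?_
    intro h' hh'
    obtain ⟨Y', hY', h5, hYT'⟩ := hall _ (H.mul_mem h'.2 (H.inv_mem (hR.le hγ))) hh'
    refine ⟨Y', hY', hYT', γ, hγ, ?_⟩
    rw [← h5, inv_mul_cancel_right]
  have hmono : ∀ R R' : ℕ, R ≤ R' → OR R ⊆ OR R' := by
    rintro R R' hRR h ⟨Y, hY, hYT, hh⟩
    refine ⟨Y, hY, fun i j => (hYT i j).trans_le (by exact_mod_cast hRR), hh⟩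
  have hcov : ∀ h : H, ∃ R, h ∈ OR R := by
    intro h
    obtain ⟨Y, hY, γ, hγ, hh⟩ := hR.trans h h.2
    obtain ⟨R, hRn⟩ := exists_nat_gt (∑ i, ∑ j, |Y i j|)
    refine ⟨R, Y, hY, fun i j => ?_, γ, hγ, hh⟩
    refine lt_of_le_of_lt ?_ hRn
    calc |Y i j| ≤ ∑ j, |Y i j| :=
          Finset.single_le_sum (f := fun j => |Y i j|) (fun _ _ => abs_nonneg _)
            (Finset.mem_univ j)
      _ ≤ ∑ i, ∑ j, |Y i j| :=
          Finset.single_le_sum (f := fun i => ∑ j, |Y i j|)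
            (fun _ _ => Finset.sum_nonneg fun _ _ => abs_nonneg _) (Finset.mem_univ i)
  obtain ⟨R, hRall⟩ : ∃ R, ∀ h : H, h ∈ OR R := by
    obtain ⟨R, hR1⟩ := (isCompact_univ (X := H ⧸ Gm.subgroupOf H)).elim_directed_cover
      (fun R => (QuotientGroup.mk : H → H ⧸ Gm.subgroupOf H) '' (OR R))
      (fun R => QuotientGroup.isOpenMap_coe _ (hORo R)) (by
        rintro ⟨h⟩ -
        obtain ⟨R, hh⟩ := hcov h
        exact Set.mem_iUnion.2 ⟨R, h, hh, rfl⟩) (by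
        intro R R'
        exact ⟨max R R', Set.image_mono (hmono _ _ (le_max_left _ _)),
          Set.image_mono (hmono _ _ (le_max_right _ _))⟩)
    refine ⟨R, fun h => ?_⟩
    obtain ⟨h', ⟨Y, hY, hYT, γ, hγ, hh'⟩, hq⟩ := hR1 (Set.mem_univ (QuotientGroup.mk h))
    have h5 : h'⁻¹ * h ∈ Gm.subgroupOf H := QuotientGroup.eq.1 hq
    have h6 : ((h' : (Mat N)ˣ)⁻¹ * (h : (Mat N)ˣ)) ∈ Gm := h5
    refine ⟨Y, hY, hYT, γ * ((h' : (Mat N)ˣ)⁻¹ * (h : (Mat N)ˣ)), Gm.mul_mem hγ h6, ?_⟩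
    rw [← mul_assoc, ← hh', mul_inv_cancel_left]
  -- the group
  let G1 : Subgroup (Mat N)ˣ :=
    { carrier := {γ | γ ∈ Gm ∧ ∃ Y ∈ e, γ = uexp Y}
      one_mem' := ⟨Gm.one_mem, 0, e.zero_mem, uexp_zero.symm⟩
      mul_mem' := by
        rintro a b ⟨ha, X, hX, rfl⟩ ⟨hb, Y, hY, rfl⟩
        obtain ⟨Z, hZ, h⟩ := uexp_mul' hR.lieE hX hY
        exact ⟨Gm.mul_mem ha hb, Z, hZ, h⟩
      inv_mem' := by
        rintro a ⟨ha, X, hX, rfl⟩
        exact ⟨Gm.inv_mem ha, -X, e.neg_mem hX, uexp_inv X⟩ }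
  -- the bound
  have hcompact : IsCompact {w : Mat N | ∀ i j, |w i j| ≤ (R : ℝ)} := by
    have h1 : IsCompact (Set.univ.pi fun _ : Fin N => Set.univ.pi fun _ : Fin N =>
        Set.Icc (-(R : ℝ)) R) :=
      isCompact_univ_pi fun _ => isCompact_univ_pi fun _ => isCompact_Icc
    have h2 : {w : Mat N | ∀ i j, |w i j| ≤ (R : ℝ)} =
        (Set.univ.pi fun _ : Fin N => Set.univ.pi fun _ : Fin N =>
        Set.Icc (-(R : ℝ)) R) := by
      ext w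
      constructor
      · intro h i _ j _
        exact abs_le.1 (h i j)
      · intro h i j
        exact abs_le.2 (h i trivial j trivial)
    rw [h2]
    exact h1
  have hcontF : Continuous fun w : Mat N => ∑ i, ∑ j, |J887.Ex N w i j| :=
    continuous_finsetSum _ fun i _ => continuous_finsetSum _ fun j _ =>
      (J887.Ex_continuous.matrix_elem i j).abs
  obtain ⟨C, hC⟩ := hcompact.exists_bound_of_continuousOn hcontF.continuousOn
  have hspan := log_mem_span G1 (by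
    rintro γ ⟨hγ, Y, hY, rfl⟩
    exact ⟨Y, J887.sup_iff.2 (hR.e_le hY), uexp_val (hR.e_le hY)⟩) X
    (J887.sup_iff.2 (hR.e_le hX)) C (by
    intro n
    have hnX : (n : ℝ) • X ∈ e := e.smul_mem _ hX
    obtain ⟨Y, hY, hYT, γ, hγ, hh⟩ := hRall ⟨uexp ((n : ℝ) • X), hR.eH hnX⟩
    have hh' : uexp ((n : ℝ) • X) = uexp Y * γ := hh
    obtain ⟨Z, hZ, h6⟩ := uexp_mul' hR.lieE (e.neg_mem hY) hnX
    have h7 : γ = uexp Z := by
      rw [← h6, hh', ← uexp_inv, inv_mul_cancel_left]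
    refine ⟨γ⁻¹, G1.inv_mem ⟨hγ, Z, hZ, h7⟩, fun i j => ?_⟩
    have h8 : IsNilpotent.exp ((n : ℝ) • X) * ((γ⁻¹ : (Mat N)ˣ) : Mat N) = J887.Ex N Y := by
      rw [← uexp_val (hR.e_le hnX), ← Units.val_mul, hh', mul_inv_cancel_right,
        uexp_val (hR.e_le hY), (J887.matFiltR N).exp_eq (memF (hR.e_le hY))]
      rfl
    have h9 := hC Y (fun i j => (hYT i j).le)
    rw [Real.norm_eq_abs] at h9
    have h10 : |J887.Ex N Y i j| ≤ C := by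
      refine le_trans ?_ ((le_abs_self _).trans h9)
      calc |J887.Ex N Y i j| ≤ ∑ j, |J887.Ex N Y i j| :=
            Finset.single_le_sum (f := fun j => |J887.Ex N Y i j|) (fun _ _ => abs_nonneg _)
              (Finset.mem_univ j)
        _ ≤ ∑ i, ∑ j, |J887.Ex N Y i j| :=
            Finset.single_le_sum (f := fun i => ∑ j, |J887.Ex N Y i j|)
              (fun _ _ => Finset.sum_nonneg fun _ _ => abs_nonneg _) (Finset.mem_univ i)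
    rw [← h8] at h10
    exact h10)
  refine Submodule.span_mono ?_ hspan
  rintro y ⟨hy, γ, ⟨hγ, Y, hY, rfl⟩, hγy⟩
  have hyS : y ∈ Su N := J887.sup_iff.1 hy
  have h1 : Y = y := by
    refine uexp_inj (hR.e_le hY) hyS ?_
    apply Units.ext
    rw [hγy, uexp_val hyS]
  rw [← h1]
  exact ⟨hY, hγ⟩

end Pool.Agent.Y329.NS
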