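import Pool.Agent.Y329.NS.Stm

/-!
# Project NS, job C: compactness of the quotient
-/

set_option autoImplicit false

namespace Pool.Agent.Y329.NS

open Topology

theorem doneC : S_C := by
  intro m σ δ J G Λ hJ hσ hδ hσδ hσΛ hδΛ hG ⟨n, b, hb, hall⟩
  have hτadd : ∀ a b : ℤ, uexp ((a : ℝ) • σ + (b : ℝ) • δ) = uexp σ ^ a * uexp δ ^ b := by
    intro a b
    rw [uexp_zpow hσ, uexp_zpow hδ, uexp_add (Submodule.smul_mem _ _ hσ)
      (Submodule.smul_mem _ _ hδ)]
    rw [smul_mul_smul_comm, smul_mul_smul_comm, hσδ, mul_comm (a : ℝ)]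
  have hJG : ∀ f ∈ J, uexp f ∈ G := by
    intro f hf
    rw [hG]
    refine ⟨f, hf, 0, 0, ?_⟩
    rw [Int.cast_zero, zero_smul, zero_smul, add_zero, uexp_zero, mul_one]
  let K := Fin n → Set.Icc (0 : ℝ) 1
  have hbt : ∀ (t : K) (i : Fin n), ((t i : ℝ)) • b i ∈ J := fun t i => J.smul_mem _ (hb i)
  let F : K → G := fun t => (List.ofFn fun i => (⟨uexp ((t i : ℝ) • b i), hJG _ (hbt t i)⟩ : G)).prod
  have hFval : ∀ t, ((F t : G) : (Mat m)ˣ) = (List.ofFn fun i => uexp ((t i : ℝ) • b i)).prod := by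
    intro t
    show ((List.ofFn fun i => (⟨uexp ((t i : ℝ) • b i), hJG _ (hbt t i)⟩ : G)).prod : (Mat m)ˣ) = _
    have h1 := map_list_prod G.subtype (List.ofFn fun i =>
      (⟨uexp ((t i : ℝ) • b i), hJG _ (hbt t i)⟩ : G))
    rw [List.map_ofFn] at h1
    exact h1
  have hF : Continuous F := by
    have h1 : F = fun t => ((List.finRange n).map
        (fun i => (⟨uexp ((t i : ℝ) • b i), hJG _ (hbt t i)⟩ : G))).prod := by
      funext t
      show (List.ofFn fun i => (⟨uexp ((t i : ℝ) • b i), hJG _ (hbt t i)⟩ : G)).prod = _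
      rw [List.ofFn_eq_map]
    rw [h1]
    refine continuous_list_prod _ fun i _ => ?_
    refine Continuous.subtype_mk ?_ _
    have hc : Continuous fun t : K => ((t i : ℝ)) • b i := by
      have h2 : Continuous fun t : K => (t i : ℝ) :=
        continuous_subtype_val.comp (continuous_apply i)
      exact h2.smul continuous_const
    exact uexp_continuous hc (fun t => hJ (hbt t i))
  let q : K → G ⧸ Λ.subgroupOf G := fun t => QuotientGroup.mk (F t)
  have hq : Continuous q := QuotientGroup.continuous_mk.comp hF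
  have hsurj : Function.Surjective q := by
    rintro ⟨T⟩
    obtain ⟨f, hf, a, c, h1⟩ := (hG T).1 T.2
    obtain ⟨t, ht, l, hl, h2⟩ := hall f hf
    refine ⟨fun i => ⟨t i, ht i⟩, ?_⟩
    show (QuotientGroup.mk (F _) : G ⧸ Λ.subgroupOf G) = QuotientGroup.mk T
    rw [QuotientGroup.eq]
    show ((F (fun i => ⟨t i, ht i⟩) : G)⁻¹ * T : G).1 ∈ Λ
    have h3 : ((F (fun i => ⟨t i, ht i⟩) : G)⁻¹ * T : G).1 =
        l * uexp ((a : ℝ) • σ + (c : ℝ) • δ) := by
      show ((F (fun i => ⟨t i, ht i⟩) : G) : (Mat m)ˣ)⁻¹ * (T : (Mat m)ˣ) = _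
      rw [hFval, h1, h2]
      group
    rw [h3, hτadd]
    exact Λ.mul_mem hl (Λ.mul_mem (Λ.zpow_mem hσΛ a) (Λ.zpow_mem hδΛ c))
  rw [← isCompact_univ_iff, ← hsurj.range_eq]
  exact isCompact_range hq

end Pool.Agent.Y329.NS
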