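import Pool.Agent.Y329.NS.Stm

/-!
# Project NS, job D: density of the generated subgroup
-/

set_option autoImplicit false

namespace Pool.Agent.Y329.NS

open Topology

/-- if `x, y` are in `L`, `y - x` in the ideal `B`, `exp B` and `exp x` are in `D`, so is `exp y` -/
theorem uexp_mem_of_sub {m : ℕ} {L B : Submodule ℝ (Mat m)} (hL : LieSub L) (hB : Idl L B)
    {D : Subgroup (Mat m)ˣ} (hD : ∀ z ∈ B, uexp z ∈ D) {x y : Mat m} (hx : x ∈ L) (hy : y ∈ L)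
    (h : y - x ∈ B) (hxD : uexp x ∈ D) : uexp y ∈ D := by
  obtain ⟨j, hj, h1⟩ := uexp_coset hL hB hx hy h
  rw [h1]
  exact D.mul_mem hxD (hD j hj)

/-- sums modulo the ideal -/
theorem uexp_add_mem {m : ℕ} {L B : Submodule ℝ (Mat m)} (hL : LieSub L) (hB : Idl L B)
    {D : Subgroup (Mat m)ˣ} (hD : ∀ z ∈ B, uexp z ∈ D) {x y : Mat m} (hx : x ∈ L) (hy : y ∈ L)
    (h : x * y - y * x ∈ B) (hxD : uexp x ∈ D) (hyD : uexp y ∈ D) : uexp (x + y) ∈ D := by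
  obtain ⟨j, hj, h1⟩ := uexp_mul hL hB hx hy h
  refine uexp_mem_of_sub hL hB hD (x := x + y + j)
    (L.add_mem (L.add_mem hx hy) (hB.le hj)) (L.add_mem hx hy) ?_ ?_
  · have e : x + y - (x + y + j) = -j := by abel
    rw [e]
    exact B.neg_mem hj
  · rw [← h1]
    exact D.mul_mem hxD hyD

/-- continuity of `uexp ∘ f` along closures of subsets of a subspace -/
theorem uexp_closure {N m : ℕ} {e : Submodule ℝ (Mat N)} (f : Mat N →ₗ[ℝ] Mat m)
    (hf : ∀ X ∈ e, f X ∈ Su m) {S : Set (Mat N)} (hS : ∀ Y ∈ S, Y ∈ e) {D : Set (Mat m)ˣ}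
    (hD : ∀ Y ∈ S, uexp (f Y) ∈ D) {X : Mat N} (hX : X ∈ e) (hXS : X ∈ closure S) :
    uexp (f X) ∈ closure D := by
  have hfc : Continuous f := LinearMap.continuous_of_finiteDimensional f
  have hc : Continuous fun Y : e => uexp (f Y) :=
    uexp_continuous (hfc.comp continuous_subtype_val) (fun Y => hf Y Y.2)
  have h1 : (⟨X, hX⟩ : e) ∈ closure ((Subtype.val : e → Mat N) ⁻¹' S) := by
    rw [IsInducing.subtypeVal.closure_eq_preimage_closure_image]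
    show X ∈ closure (Subtype.val '' (Subtype.val ⁻¹' S))
    rw [Subtype.image_preimage_coe]
    have e1 : (e : Set (Mat N)) ∩ S = S := by
      ext Y
      exact ⟨fun h => h.2, fun h => ⟨hS Y h, h⟩⟩
    rw [e1]
    exact hXS
  exact map_mem_closure (f := fun Y : e => uexp (f Y)) hc h1 (fun Y hY => hD Y hY)

theorem doneD (hK : S_K) (h2 : S_DN2) (h3 : S_DN3) : S_D := by
  intro N d p P e M H Gm Y₀ σ δ J L hS hJ G hG r hr D hBD hRD hΔD hΛD hcl
  have hR := hS.red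
  obtain ⟨hσδ, hσΛ, hδΛ, hkpw, hgen⟩ := hK N d p P e M H Gm Y₀ σ δ J L hS
  have hMS : M ∈ Su N := hR.M_mem
  have hYS : Y₀ ∈ Su N := hR.e_le hS.Y₀_mem
  have hZS : M - Y₀ ∈ Su N := Submodule.sub_mem _ hMS hYS
  have hLie := hS.lie
  have hIdl := hS.idl
  have hB : Idl L (brk L J) := hIdl.brk
  have hσL : σ ∈ L := by
    rw [hS.L_eq]
    exact Submodule.mem_sup_right (Submodule.subset_span (by simp))
  have hδL : δ ∈ L := by
    rw [hS.L_eq]
    exact Submodule.mem_sup_right (Submodule.subset_span (by simp))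
  have hσS : σ ∈ Su P.m := hLie.le hσL
  have hδS : δ ∈ Su P.m := hLie.le hδL
  have hdlJ : ∀ X ∈ e, P.dl X ∈ J := fun X hX =>
    hS.G₀_le (Submodule.mem_sup_left (Submodule.mem_map_of_mem hX))
  have hkpJ : ∀ X ∈ e, P.kp X ∈ J := fun X hX =>
    hS.G₀_le (Submodule.mem_sup_right (Submodule.mem_map_of_mem hX))
  have hJL : J ≤ L := hIdl.le
  have hJG : ∀ f ∈ J, uexp f ∈ G := by
    intro f hf
    rw [hG]
    refine ⟨f, hf, 0, 0, ?_⟩
    rw [Int.cast_zero, zero_smul, zero_smul, add_zero, uexp_zero, mul_one]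
  have hτadd : ∀ a b : ℤ, uexp ((a : ℝ) • σ + (b : ℝ) • δ) = uexp σ ^ a * uexp δ ^ b := by
    intro a b
    rw [uexp_zpow hσS, uexp_zpow hδS, uexp_add (Submodule.smul_mem _ _ hσS)
      (Submodule.smul_mem _ _ hδS)]
    rw [smul_mul_smul_comm, smul_mul_smul_comm, hσδ, mul_comm (a : ℝ)]
  have hτG : ∀ a b : ℤ, uexp ((a : ℝ) • σ + (b : ℝ) • δ) ∈ G := by
    intro a b
    rw [hG]
    refine ⟨0, J.zero_mem, a, b, ?_⟩
    rw [uexp_zero, one_mul]
  have hσG : uexp σ ∈ G := by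
    have := hτG 1 0
    rwa [hτadd, zpow_one, zpow_zero, mul_one] at this
  have hδG : uexp δ ∈ G := by
    have := hτG 0 1
    rwa [hτadd, zpow_one, zpow_zero, one_mul] at this
  have hσD : uexp σ ∈ D := hΛD _ hσG hσΛ
  -- part (1)
  have hτ₂ : P.dl M = δ + P.dl Y₀ := by
    rw [hS.δ_eq, map_sub]
    abel
  have hΔG : uexp (P.dl M) ∈ G := by
    obtain ⟨j, hj, h1⟩ := uexp_mul hLie hIdl (hJL (hdlJ Y₀ hS.Y₀_mem)) hδL (by
      have e1 : P.dl Y₀ * δ - δ * P.dl Y₀ = -(δ * P.dl Y₀ - P.dl Y₀ * δ) := by abel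
      rw [e1]
      exact J.neg_mem (hIdl.br δ hδL _ (hdlJ Y₀ hS.Y₀_mem)))
    obtain ⟨j', hj', h4⟩ := uexp_coset hLie hIdl (x := P.dl Y₀ + δ + j) (x' := P.dl M)
      (L.add_mem (L.add_mem (hJL (hdlJ Y₀ hS.Y₀_mem)) hδL) (hJL hj))
      (by rw [hτ₂]; exact L.add_mem hδL (hJL (hdlJ Y₀ hS.Y₀_mem))) (by
        have e1 : P.dl M - (P.dl Y₀ + δ + j) = -j := by
          rw [hτ₂]
          abel
        rw [e1]
        exact J.neg_mem hj)
    rw [h4, ← h1]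
    exact G.mul_mem (G.mul_mem (hJG _ (hdlJ Y₀ hS.Y₀_mem)) hδG) (hJG j' hj')
  have hdl : ∀ X ∈ e, uexp (P.dl X) ∈ D := by
    intro X hX
    refine hcl _ (hJG _ (hdlJ X hX)) ?_
    refine uexp_closure P.dl (fun X hX => P.dl_mem X (hR.e_le hX)) (fun Y hY => hY.1) ?_ hX
      (h2 N e M H Gm hR X hX)
    rintro Y ⟨hY, n, γ, hγ, hYγ⟩
    have hYS' : Y ∈ Su N := hR.e_le hY
    have hG1 : (uexp (P.dl M)) ^ (-n) * uexp (P.dl Y) ∈ G :=
      G.mul_mem (G.zpow_mem hΔG _) (hJG _ (hdlJ Y hY))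
    have hΛ1 : (uexp (P.dl M)) ^ (-n) * uexp (P.dl Y) ∈ P.Lam Gm := by
      rw [OpPkg.mem_Lam]
      refine ⟨0, fun _ _ => γ, fun _ _ => hγ, ?_⟩
      intro v i x
      beta_reduce
      rw [uexp_zpow (P.dl_mem M hMS), ← map_smul, Units.val_mul,
        uexp_val (P.dl_mem _ (Submodule.smul_mem _ _ hMS)), uexp_val (P.dl_mem Y hYS'),
        ← Matrix.mulVec_mulVec, P.exp_dl _ (Submodule.smul_mem _ _ hMS), P.exp_dl _ hYS',
        Matrix.mulVec_mulVec, Int.cast_zero, add_zero]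
      congr 1
      have h4 : γ = (uexp M) ^ (-n) * uexp Y := by
        rw [hYγ, zpow_neg, inv_mul_cancel_left]
      rw [h4, uexp_zpow hMS, Units.val_mul, uexp_val (Submodule.smul_mem _ _ hMS),
        uexp_val hYS']
    have h4 : uexp (P.dl Y) = (uexp (P.dl M)) ^ n * ((uexp (P.dl M)) ^ (-n) * uexp (P.dl Y)) := by
      rw [zpow_neg, mul_inv_cancel_left]
    rw [h4]
    exact D.mul_mem (D.zpow_mem hΔD n) (hΛD _ hG1 hΛ1)
  -- part (2)
  have hτ₁ : P.s + P.kp M = σ + P.kp Y₀ := by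
    rw [hS.σ_eq, map_sub]
    abel
  have hkY : P.kp Y₀ ∈ J := hkpJ Y₀ hS.Y₀_mem
  have hkYD : ∀ n : ℤ, uexp (P.kp ((((r : ℤ) * n : ℤ) : ℝ) • Y₀)) ∈ D := by
    intro n
    set c : ℝ := (((r : ℤ) * n : ℤ) : ℝ) with hc
    have h4 : uexp (c • (σ + P.kp Y₀)) ∈ D := by
      have h5 : uexp (c • (σ + P.kp Y₀)) = (uexp ((r : ℝ) • (P.s + P.kp M))) ^ n := by
        have hmem : P.s + P.kp M ∈ Su P.m := Submodule.add_mem _ P.s_mem (P.kp_mem M hMS)
        rw [uexp_zpow (Submodule.smul_mem _ _ hmem), smul_smul, hτ₁]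
        congr 2
        rw [hc]
        push_cast
        ring
      rw [h5]
      exact D.zpow_mem hRD n
    have h5 : uexp (-(c • σ)) ∈ D := by
      rw [← uexp_inv]
      refine D.inv_mem ?_
      rw [hc, ← uexp_zpow hσS]
      exact D.zpow_mem hσD _
    rw [map_smul]
    have e1 : c • P.kp Y₀ = c • (σ + P.kp Y₀) + -(c • σ) := by
      rw [smul_add]
      abel
    rw [e1]
    refine uexp_add_mem hLie hB hBD (L.smul_mem c (L.add_mem hσL (hJL hkY)))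
      (L.neg_mem (L.smul_mem c hσL)) ?_ h4 h5
    have e2 : c • (σ + P.kp Y₀) * -(c • σ) - -(c • σ) * c • (σ + P.kp Y₀) =
        (c * c) • (σ * P.kp Y₀ - P.kp Y₀ * σ) := by
      rw [mul_neg, neg_mul, sub_neg_eq_add, smul_mul_smul_comm, smul_mul_smul_comm, ← smul_neg,
        ← smul_add]
      congr 1
      noncomm_ring
    rw [e2]
    exact Submodule.smul_mem _ _ (brk_mem hσL hkY)
  have hkp : ∀ X ∈ e, uexp (P.kp X) ∈ D := by
    intro X hX
    refine hcl _ (hJG _ (hkpJ X hX)) ?_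
    refine uexp_closure P.kp (fun X hX => P.kp_mem X (hR.e_le hX)) ?_ ?_ hX
      (h3 N e M H Gm hR Y₀ hS.Y₀_mem hS.Mγ_mem r hr X hX)
    · rintro Y ⟨n, X₁, hX₁, hX₁G, w, hw, rfl⟩
      have hwe : w ∈ e := by
        have h4 : brk (e ⊔ Submodule.span ℝ {M}) e ≤ e := by
          unfold brk
          rw [Submodule.span_le]
          rintro _ ⟨x, hx, y, hy, rfl⟩
          obtain ⟨xe, hxe, xM, hxM, rfl⟩ := Submodule.mem_sup.1 hx
          obtain ⟨c, rfl⟩ := Submodule.mem_span_singleton.1 hxM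
          have e1 : (xe + c • M) * y - y * (xe + c • M) =
              (xe * y - y * xe) + c • (M * y - y * M) := by
            rw [add_mul, mul_add, smul_mul_assoc, mul_smul_comm, smul_sub]
            abel
          rw [e1]
          exact e.add_mem (hR.br xe hxe y hy) (e.smul_mem c (hR.brM y hy))
        exact h4 hw
      exact e.add_mem (e.add_mem (e.smul_mem _ hS.Y₀_mem) hX₁) hwe
    · rintro Y ⟨n, X₁, hX₁, hX₁G, w, hw, rfl⟩
      obtain ⟨-, w₁, hw₁, hw₁Λ, hw₁B⟩ := hgen X₁ hX₁ hX₁G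
      have h4 : uexp (P.kp X₁) ∈ D := by
        refine uexp_mem_of_sub hLie hB hBD (hJL hw₁) (hJL (hkpJ X₁ hX₁)) ?_
          (hΛD _ (hJG _ hw₁) hw₁Λ)
        have e1 : P.kp X₁ - w₁ = -(w₁ - P.kp X₁) := by abel
        rw [e1]
        exact Submodule.neg_mem _ hw₁B
      have hc := hkpJ _ (e.smul_mem ((((r : ℤ) * n : ℤ) : ℝ)) hS.Y₀_mem)
      have h5 : uexp (P.kp ((((r : ℤ) * n : ℤ) : ℝ) • Y₀) + P.kp X₁) ∈ D :=
        uexp_add_mem hLie hB hBD (hJL hc) (hJL (hkpJ X₁ hX₁))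
          (brk_mem (hJL hc) (hkpJ X₁ hX₁)) (hkYD n) h4
      rw [map_add, map_add]
      refine uexp_mem_of_sub hLie hB hBD (L.add_mem (hJL hc) (hJL (hkpJ X₁ hX₁)))
        (L.add_mem (L.add_mem (hJL hc) (hJL (hkpJ X₁ hX₁))) (hB.le (hkpw w hw))) ?_ h5
      rw [add_sub_cancel_left]
      exact hkpw w hw
  -- part (3)
  intro f hf
  obtain ⟨g, hg, z, hz, rfl⟩ := Submodule.mem_sup.1 (hJ hf)
  obtain ⟨_, ⟨X, hX, rfl⟩, _, ⟨Y, hY, rfl⟩, rfl⟩ := Submodule.mem_sup.1 hg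
  have h4 : uexp (P.dl X + P.kp Y) ∈ D :=
    uexp_add_mem hLie hB hBD (hJL (hdlJ X hX)) (hJL (hkpJ Y hY))
      (brk_mem (hJL (hdlJ X hX)) (hkpJ Y hY)) (hdl X hX) (hkp Y hY)
  refine uexp_mem_of_sub hLie hB hBD (L.add_mem (hJL (hdlJ X hX)) (hJL (hkpJ Y hY)))
    (hJL hf) ?_ h4
  rw [add_sub_cancel_left]
  exact hz

end Pool.Agent.Y329.NS
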