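import Pool.Agent.Y329.NS.Stm

/-!
# Project NS, job K: rationality of the generators
-/

set_option autoImplicit false

namespace Pool.Agent.Y329.NS

open Topology

section

variable {N d : ℕ} {p : Fin d → Polynomial ℤ}
  (P : OpPkg N d (fun i => (p i).map (Int.castRingHom ℝ)))

theorem sk_mem_Lam {Gm : Subgroup (Mat N)ˣ} {Z : Mat N} (hZ : Z ∈ Su N) (hG : uexp Z ∈ Gm) :
    uexp (P.s + P.kp Z) ∈ P.Lam Gm := by
  rw [OpPkg.mem_Lam]
  refine ⟨1, fun i x => uexp ((((p i).map (Int.castRingHom ℝ)).eval (x + 1) -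
    ((p i).map (Int.castRingHom ℝ)).eval x) • Z), fun i z => ?_, ?_⟩
  · have h1 := Polynomial.eval_intCast_map (Int.castRingHom ℝ) (p i) z
    have h2 := Polynomial.eval_intCast_map (Int.castRingHom ℝ) (p i) (z + 1)
    have h3 : (((p i).map (Int.castRingHom ℝ)).eval ((z : ℝ) + 1) -
        ((p i).map (Int.castRingHom ℝ)).eval (z : ℝ)) =
        (((p i).eval (z + 1) - (p i).eval z : ℤ) : ℝ) := by
      rw [Int.cast_add, Int.cast_one] at h2
      rw [h1, h2]
      simp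
    show uexp _ ∈ Gm
    rw [h3, ← uexp_zpow hZ]
    exact Gm.zpow_mem hG _
  · intro v i x
    beta_reduce
    rw [uexp_val (Submodule.add_mem _ P.s_mem (P.kp_mem Z hZ)),
      uexp_val (Submodule.smul_mem _ _ hZ)]
    have h1 := P.exp_sk Z hZ 1 v i x
    rw [Nat.cast_one, one_smul] at h1
    rw [h1, Int.cast_one]

theorem dl_mem_Lam {Gm : Subgroup (Mat N)ˣ} {Z : Mat N} (hZ : Z ∈ Su N) (hG : uexp Z ∈ Gm) :
    uexp (P.dl Z) ∈ P.Lam Gm := by
  rw [OpPkg.mem_Lam]
  refine ⟨0, fun i x => uexp Z, fun i z => hG, ?_⟩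
  intro v i x
  beta_reduce
  rw [uexp_val (P.dl_mem Z hZ), uexp_val hZ, P.exp_dl Z hZ, Int.cast_zero, add_zero]

end

theorem doneK : S_K := by
  intro N d p P e M H Gm Y₀ σ δ J L hS
  have hR := hS.red
  have hMS : M ∈ Su N := hR.M_mem
  have hYS : Y₀ ∈ Su N := hR.e_le hS.Y₀_mem
  have hZS : M - Y₀ ∈ Su N := Submodule.sub_mem _ hMS hYS
  have hLie := hS.lie
  have hIdl := hS.idl
  have hcomm : σ * δ = δ * σ := by
    rw [hS.σ_eq, hS.δ_eq]
    have h1 := P.br_dk _ hZS _ hZS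
    rw [sub_self, map_zero, sub_eq_zero] at h1
    rw [add_mul, mul_add, P.br_sd _ hZS, h1]
  have hσL : σ ∈ L := by
    rw [hS.L_eq]
    exact Submodule.mem_sup_right (Submodule.subset_span (by simp))
  have hδL : δ ∈ L := by
    rw [hS.L_eq]
    exact Submodule.mem_sup_right (Submodule.subset_span (by simp))
  have hdlJ : ∀ X ∈ e, P.dl X ∈ J := fun X hX =>
    hS.G₀_le (Submodule.mem_sup_left (Submodule.mem_map_of_mem hX))
  have hkpJ : ∀ X ∈ e, P.kp X ∈ J := fun X hX =>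
    hS.G₀_le (Submodule.mem_sup_right (Submodule.mem_map_of_mem hX))
  have hkpw : ∀ w ∈ brk (e ⊔ Submodule.span ℝ {M}) e, P.kp w ∈ brk L J := by
    have h1 : brk (e ⊔ Submodule.span ℝ {M}) e ≤ (brk L J).comap P.kp := by
      unfold brk
      rw [Submodule.span_le]
      rintro _ ⟨x, hx, y, hy, rfl⟩
      obtain ⟨xe, hxe, xM, hxM, rfl⟩ := Submodule.mem_sup.1 hx
      obtain ⟨c, rfl⟩ := Submodule.mem_span_singleton.1 hxM
      have hyS := hR.e_le hy
      have hxS : xe + c • M ∈ Su N :=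
        Submodule.add_mem _ (hR.e_le hxe) (Submodule.smul_mem _ _ hMS)
      rw [SetLike.mem_coe, Submodule.mem_comap, ← P.br_dk _ hxS _ hyS]
      refine brk_mem ?_ (hkpJ y hy)
      have e1 : P.dl (xe + c • M) = P.dl (xe + c • Y₀) + c • δ := by
        rw [hS.δ_eq, ← map_smul, ← map_add]
        congr 1
        rw [smul_sub]
        abel
      rw [e1]
      exact L.add_mem (hIdl.le (hdlJ _ (e.add_mem hxe (e.smul_mem c hS.Y₀_mem))))
        (L.smul_mem c hδL)
    exact h1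
  refine ⟨hcomm, ?_, ?_, hkpw, ?_⟩
  · rw [hS.σ_eq]
    exact sk_mem_Lam P hZS hS.Mγ_mem
  · rw [hS.δ_eq]
    exact dl_mem_Lam P hZS hS.Mγ_mem
  intro X hX hXG
  refine ⟨dl_mem_Lam P (hR.e_le hX) hXG, ?_⟩
  -- the Lie algebra `e + ℝ M`
  set L' : Submodule ℝ (Mat N) := e ⊔ Submodule.span ℝ {M} with hL'
  have hML' : M ∈ L' := Submodule.mem_sup_right (Submodule.mem_span_singleton_self M)
  have heL' : e ≤ L' := le_sup_left
  have hmem : ∀ x, x ∈ L' ↔ ∃ y ∈ e, ∃ c : ℝ, x = y + c • M := by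
    intro x
    constructor
    · intro hx
      obtain ⟨xe, hxe, xM, hxM, rfl⟩ := Submodule.mem_sup.1 hx
      obtain ⟨c, rfl⟩ := Submodule.mem_span_singleton.1 hxM
      exact ⟨xe, hxe, c, rfl⟩
    · rintro ⟨y, hy, c, rfl⟩
      exact L'.add_mem (heL' hy) (L'.smul_mem c hML')
  have hidl' : ∀ x ∈ L', ∀ y ∈ e, x * y - y * x ∈ e := by
    intro x hx y hy
    obtain ⟨z, hz, c, rfl⟩ := (hmem x).1 hx
    have e1 : (z + c • M) * y - y * (z + c • M) = (z * y - y * z) + c • (M * y - y * M) := by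
      rw [add_mul, mul_add, smul_mul_assoc, mul_smul_comm, smul_sub]
      abel
    rw [e1]
    exact e.add_mem (hR.br z hz y hy) (e.smul_mem c (hR.brM y hy))
  have hbr' : ∀ x ∈ L', ∀ y ∈ L', x * y - y * x ∈ e := by
    intro x hx y hy
    obtain ⟨z, hz, c, rfl⟩ := (hmem y).1 hy
    have e1 : x * (z + c • M) - (z + c • M) * x =
        (x * z - z * x) - c • (M * x - x * M) := by
      rw [add_mul, mul_add, smul_mul_assoc, mul_smul_comm, smul_sub]
      abel
    obtain ⟨x', hx', c', rfl⟩ := (hmem x).1 hx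
    have e2 : M * (x' + c' • M) - (x' + c' • M) * M = M * x' - x' * M := by
      rw [add_mul, mul_add, smul_mul_assoc, mul_smul_comm]
      abel
    rw [e1, e2]
    exact e.sub_mem (hidl' _ hx z hz) (e.smul_mem c (hR.brM x' hx'))
  have hLie' : LieSub L' := by
    refine ⟨sup_le hR.e_le ?_, fun x hx y hy => heL' (hbr' x hx y hy)⟩
    rw [Submodule.span_singleton_le_iff_mem]
    exact hMS
  have hIdle : Idl L' e := ⟨heL', hidl'⟩
  have hIdl2 : Idl L' (brk L' e) := hIdle.brk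
  have hZL' : M - Y₀ ∈ L' := L'.sub_mem hML' (heL' hS.Y₀_mem)
  obtain ⟨j, hj, h1⟩ := uexp_mul hLie' hIdl2 (heL' hX) hZL' (by
    have e1 : X * (M - Y₀) - (M - Y₀) * X = -((M - Y₀) * X - X * (M - Y₀)) := by abel
    rw [e1]
    exact Submodule.neg_mem _ (brk_mem hZL' hX))
  have hje : j ∈ e := hIdle.brk_le hj
  have h2 : uexp ((M - Y₀) + (X + j)) ∈ Gm := by
    have e1 : (M - Y₀) + (X + j) = X + (M - Y₀) + j := by abel
    rw [e1, ← h1]
    exact Gm.mul_mem hXG hS.Mγ_mem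
  have h3 := sk_mem_Lam P (Submodule.add_mem _ hZS (hR.e_le (e.add_mem hX hje))) h2
  have e1 : P.s + P.kp ((M - Y₀) + (X + j)) = σ + P.kp (X + j) := by
    rw [map_add, hS.σ_eq]
    abel
  rw [e1] at h3
  have hkX : P.kp (X + j) ∈ J := hkpJ _ (e.add_mem hX hje)
  obtain ⟨j', hj', h4⟩ := uexp_mul hLie hIdl.brk (L.add_mem hσL (hIdl.le hkX))
    (L.neg_mem hσL) (by
      have e2 : (σ + P.kp (X + j)) * -σ - -σ * (σ + P.kp (X + j)) =
          σ * P.kp (X + j) - P.kp (X + j) * σ := by noncomm_ring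
      rw [e2]
      exact brk_mem hσL hkX)
  refine ⟨P.kp (X + j) + j', J.add_mem hkX (hIdl.brk_le hj'), ?_, ?_⟩
  · have e2 : σ + P.kp (X + j) + -σ + j' = P.kp (X + j) + j' := by abel
    rw [← e2, ← h4]
    refine Subgroup.mul_mem _ h3 ?_
    rw [← uexp_inv]
    refine Subgroup.inv_mem _ ?_
    rw [hS.σ_eq]
    exact sk_mem_Lam P hZS hS.Mγ_mem
  · have e2 : P.kp (X + j) + j' - P.kp X = P.kp j + j' := by
      rw [map_add]
      abel
    rw [e2]
    exact Submodule.add_mem _ (hkpw j hj) hj'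

end Pool.Agent.Y329.NS
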