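import Pool.Agent.Y329.NS.Stm

/-!
# Project NS, job OE: `exp e` is open in `H`
-/

set_option autoImplicit false

namespace Pool.Agent.Y329.NS

open Topology Pool.Agent.TH91.NB

section lu

variable {N : ℕ} {e : Submodule ℝ (Mat N)} {M : Mat N}

/-- the Lie algebra `e + ℝ M` -/
def Lu (e : Submodule ℝ (Mat N)) (M : Mat N) : Submodule ℝ (Mat N) := e ⊔ Submodule.span ℝ {M}

theorem M_mem_Lu : M ∈ Lu e M := Submodule.mem_sup_right (Submodule.mem_span_singleton_self M)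

theorem e_le_Lu : e ≤ Lu e M := le_sup_left

theorem mem_Lu {x : Mat N} : x ∈ Lu e M ↔ ∃ y ∈ e, ∃ c : ℝ, x = y + c • M := by
  constructor
  · intro hx
    obtain ⟨xe, hxe, xM, hxM, rfl⟩ := Submodule.mem_sup.1 hx
    obtain ⟨c, rfl⟩ := Submodule.mem_span_singleton.1 hxM
    exact ⟨xe, hxe, c, rfl⟩
  · rintro ⟨y, hy, c, rfl⟩
    exact (Lu e M).add_mem (e_le_Lu hy) ((Lu e M).smul_mem c M_mem_Lu)

variable (he : e ≤ Su N) (hM : M ∈ Su N) (hbr : ∀ x ∈ e, ∀ y ∈ e, x * y - y * x ∈ e)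
  (hbM : ∀ x ∈ e, M * x - x * M ∈ e)
include hbr hbM

theorem idl_Lu : Idl (Lu e M) e := by
  refine ⟨e_le_Lu, fun x hx y hy => ?_⟩
  obtain ⟨z, hz, c, rfl⟩ := mem_Lu.1 hx
  have e1 : (z + c • M) * y - y * (z + c • M) = (z * y - y * z) + c • (M * y - y * M) := by
    rw [add_mul, mul_add, smul_mul_assoc, mul_smul_comm, smul_sub]
    abel
  rw [e1]
  exact e.add_mem (hbr z hz y hy) (e.smul_mem c (hbM y hy))

theorem br_Lu : ∀ x ∈ Lu e M, ∀ y ∈ Lu e M, x * y - y * x ∈ e := by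
  intro x hx y hy
  obtain ⟨z, hz, c, rfl⟩ := mem_Lu.1 hy
  have e1 : x * (z + c • M) - (z + c • M) * x =
      (x * z - z * x) - c • (M * x - x * M) := by
    rw [add_mul, mul_add, smul_mul_assoc, mul_smul_comm, smul_sub]
    abel
  obtain ⟨x', hx', c', rfl⟩ := mem_Lu.1 hx
  have e2 : M * (x' + c' • M) - (x' + c' • M) * M = M * x' - x' * M := by
    rw [add_mul, mul_add, smul_mul_assoc, mul_smul_comm]
    abel
  rw [e1, e2]
  exact e.sub_mem ((idl_Lu hbr hbM).br _ hx z hz) (e.smul_mem c (hbM x' hx'))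

include he hM in
theorem lie_Lu : LieSub (Lu e M) := by
  refine ⟨sup_le he ?_, fun x hx y hy => e_le_Lu (br_Lu hbr hbM x hx y hy)⟩
  rw [Submodule.span_singleton_le_iff_mem]
  exact hM

include he hM in
/-- `exp X exp (t M) = exp (Y + t M)` -/
theorem exp_form {X : Mat N} (hX : X ∈ e) (t : ℝ) :
    ∃ Y ∈ e, uexp X * uexp (t • M) = uexp (Y + t • M) := by
  have hL := lie_Lu he hM hbr hbM
  obtain ⟨j, hj, h⟩ := uexp_mul hL (idl_Lu hbr hbM) (e_le_Lu hX) ((Lu e M).smul_mem t M_mem_Lu)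
    (br_Lu hbr hbM _ (e_le_Lu hX) _ ((Lu e M).smul_mem t M_mem_Lu))
  refine ⟨X + j, e.add_mem hX hj, ?_⟩
  rw [h]
  congr 1
  abel

end lu

theorem doneOE : S_OE := by
  intro N e M H he hM hbr hbM hMe hH
  have hL := lie_Lu he hM hbr hbM
  have hI : Idl (Lu e M) e := idl_Lu hbr hbM
  have hform : ∀ h ∈ H, ∃ Y ∈ e, ∃ k : ℤ, h = uexp (Y + (k : ℝ) • M) ∧
      ∃ X ∈ e, h = uexp X * uexp ((k : ℝ) • M) := by
    intro h hh
    obtain ⟨X, hX, k, rfl⟩ := (hH h).1 hh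
    obtain ⟨Y, hY, h1⟩ := exp_form he hM hbr hbM hX (k : ℝ)
    exact ⟨Y, hY, k, h1, X, hX, rfl⟩
  have hmemL : ∀ (Y : Mat N) (t : ℝ), Y ∈ e → Y + t • M ∈ Lu e M := fun Y t hY =>
    (Lu e M).add_mem (e_le_Lu hY) ((Lu e M).smul_mem t M_mem_Lu)
  have hXH : ∀ X ∈ e, uexp X ∈ H := by
    intro X hX
    rw [hH]
    refine ⟨X, hX, 0, ?_⟩
    rw [Int.cast_zero, zero_smul, uexp_zero, mul_one]
  obtain ⟨χ, hχM, hχ⟩ := Submodule.exists_le_ker_of_notMem hMe
  have hχ0 : ∀ x ∈ e, χ x = 0 := fun x hx => hχ hx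
  have hχc : Continuous χ := LinearMap.continuous_of_finiteDimensional χ
  -- part (3)
  have h3 : ∀ X ∈ e, ∀ ε : ℝ, 0 < ε → ∃ O : Set (Mat N), IsOpen O ∧
      ((uexp X : (Mat N)ˣ) : Mat N) ∈ O ∧
      ∀ h ∈ H, ((h : (Mat N)ˣ) : Mat N) ∈ O → ∃ Y ∈ e, h = uexp Y ∧ ∀ i j, |Y i j - X i j| < ε := by
    intro X hX ε hε
    refine ⟨{w | |χ (J887.Lg N N w)| < |χ M|} ∩ ⋂ i, ⋂ j, {w | |J887.Lg N N w i j - X i j| < ε},
      ?_, ?_, ?_⟩
    · refine IsOpen.inter ?_ ?_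
      · exact isOpen_lt (hχc.comp (J887.Lg_continuous N)).abs continuous_const
      · refine isOpen_iInter_of_finite fun i => isOpen_iInter_of_finite fun j => ?_
        refine isOpen_lt ?_ continuous_const
        exact (((J887.Lg_continuous N).matrix_elem i j).sub continuous_const).abs
    · refine ⟨?_, ?_⟩
      · show |χ (J887.Lg N N _)| < |χ M|
        rw [lg_uexp (he hX), hχ0 X hX, abs_zero]
        exact abs_pos.2 hχM
      · rw [Set.mem_iInter]
        intro i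
        rw [Set.mem_iInter]
        intro j
        show |J887.Lg N N _ i j - X i j| < ε
        rw [lg_uexp (he hX), sub_self, abs_zero]
        exact hε
    · rintro h hh ⟨hO1, hO2⟩
      obtain ⟨Y, hY, k, h1, X', hX', h2⟩ := hform h hh
      have hlg : J887.Lg N N ((h : (Mat N)ˣ) : Mat N) = Y + (k : ℝ) • M := by
        rw [h1, lg_uexp (hL.le (hmemL Y k hY))]
      have hk : k = 0 := by
        have h4 : |χ (J887.Lg N N ((h : (Mat N)ˣ) : Mat N))| < |χ M| := hO1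
        rw [hlg, map_add, hχ0 Y hY, zero_add, map_smul, smul_eq_mul, abs_mul] at h4
        have h6 : |(k : ℝ)| < 1 := by
          by_contra hcon
          push Not at hcon
          have := mul_le_mul_of_nonneg_right hcon (abs_nonneg (χ M))
          linarith
        have : |k| < 1 := by exact_mod_cast h6
        exact Int.abs_lt_one_iff.1 this
      subst hk
      rw [Int.cast_zero, zero_smul, add_zero] at h1 hlg
      refine ⟨Y, hY, h1, fun i j => ?_⟩
      rw [Set.mem_iInter] at hO2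
      have h4 := hO2 i
      rw [Set.mem_iInter] at h4
      have h5 : |J887.Lg N N ((h : (Mat N)ˣ) : Mat N) i j - X i j| < ε := h4 j
      rwa [hlg] at h5
  refine ⟨?_, ?_, h3⟩
  · intro h hh
    obtain ⟨Y, hY, k, h1, -⟩ := hform h hh
    rw [h1]
    exact uexp_sub_one (hL.le (hmemL Y k hY))
  -- the subgroup
  have hLe : LieSub e := ⟨he, hbr⟩
  let H₀ : Subgroup H :=
    { carrier := {h | ∃ X ∈ e, (h : (Mat N)ˣ) = uexp X}
      one_mem' := ⟨0, e.zero_mem, by rw [uexp_zero]; rfl⟩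
      mul_mem' := by
        rintro a b ⟨X, hX, ha⟩ ⟨Y, hY, hb⟩
        obtain ⟨Z, hZ, h⟩ := uexp_mul' hLe hX hY
        refine ⟨Z, hZ, ?_⟩
        rw [Subgroup.coe_mul, ha, hb, h]
      inv_mem' := by
        rintro a ⟨X, hX, ha⟩
        refine ⟨-X, e.neg_mem hX, ?_⟩
        rw [Subgroup.coe_inv, ha, uexp_inv] }
  have hcont : Continuous fun X : e => (⟨uexp (X : Mat N), hXH X X.2⟩ : H) := by
    refine Continuous.subtype_mk ?_ _
    exact uexp_continuous continuous_subtype_val (fun X => he X.2)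
  refine ⟨H₀, ?_, ?_, ?_, fun h => Iff.rfl⟩
  · refine ⟨?_⟩
    rintro a ⟨X, hX, ha⟩ g
    obtain ⟨Y, hY, k, h1, -⟩ := hform g g.2
    obtain ⟨j, hj, h2⟩ := uexp_conj hL hI (hmemL Y k hY) (e_le_Lu hX)
      (hI.br _ (hmemL Y k hY) _ (hI.br _ (hmemL Y k hY) _ hX))
    refine ⟨_, e.add_mem (e.add_mem hX (hI.br _ (hmemL Y k hY) _ hX)) hj, ?_⟩
    rw [← h2, ← uexp_inv, ← h1, ← ha]
    rfl
  · refine Subgroup.isOpen_of_mem_nhds _ (g := 1) ?_
    obtain ⟨O, hO, h0O, hall⟩ := h3 0 e.zero_mem 1 one_pos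
    have hc : Continuous fun h : H => ((h : (Mat N)ˣ) : Mat N) :=
      Units.continuous_val.comp continuous_subtype_val
    have h4 : (fun h : H => ((h : (Mat N)ˣ) : Mat N)) ⁻¹' O ∈ 𝓝 (1 : H) := by
      refine (hO.preimage hc).mem_nhds ?_
      show ((1 : (Mat N)ˣ) : Mat N) ∈ O
      rwa [uexp_zero] at h0O
    refine Filter.mem_of_superset h4 ?_
    intro h hh
    obtain ⟨Y, hY, h1, -⟩ := hall h h.2 hh
    exact ⟨Y, hY, h1⟩
  · have h4 : (H₀ : Set H) = Set.range fun X : e => (⟨uexp (X : Mat N), hXH X X.2⟩ : H) := by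
      ext h
      constructor
      · rintro ⟨X, hX, hh⟩
        exact ⟨⟨X, hX⟩, Subtype.ext hh.symm⟩
      · rintro ⟨X, rfl⟩
        exact ⟨X, X.2, rfl⟩
    rw [h4]
    exact isPreconnected_range hcont

end Pool.Agent.Y329.NS
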