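import Pool.Agent.Y329.NS.Bas

/-!
# Project NS: statements of the jobs (polynomial recurrence along progressions in totally minimal
nilsystems, `S04319`)

Every `def S_xxx : Prop` below is the statement of one job; a job file proves
`theorem done : S_xxx`.
-/

set_option autoImplicit false

namespace Pool.Agent.Y329.NS

open Topology
open scoped Manifold ContDiff

/-! ## Part P: a topological form of Parry's theorem -/

/-- the lower central series of a group, `lcs G 0 = ⊤`, `lcs G 1 = [G, G]`, ... -/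
abbrev lcs (G : Type) [Group G] (n : ℕ) : Subgroup G := (⊤ : Subgroup G).lowerCentralSeries n

/-- P1: the product of a closed right invariant and a closed left invariant set is closed. -/
def S_P1 : Prop := ∀ (G : Type) [Group G] [TopologicalSpace G] [IsTopologicalGroup G]
  (Λ : Subgroup G) [CompactSpace (G ⧸ Λ)] (K D : Set G), IsClosed K → IsClosed D →
  (∀ x ∈ K, ∀ l ∈ Λ, x * l ∈ K) → (∀ x ∈ D, ∀ l ∈ Λ, l * x ∈ D) →
  IsClosed {z : G | ∃ x ∈ K, ∃ y ∈ D, z = x * y}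

/-- P2: continuous right `Λ`-invariant functions are uniformly continuous for left translations. -/
def S_P2 : Prop := ∀ (G : Type) [Group G] [TopologicalSpace G] [IsTopologicalGroup G]
  (Λ : Subgroup G) [CompactSpace (G ⧸ Λ)] (φ : G → Circle), Continuous φ →
  (∀ x, ∀ l ∈ Λ, φ (x * l) = φ x) → ∀ ε : ℝ, 0 < ε →
  ∃ V ∈ 𝓝 (1 : G), ∀ v ∈ V, ∀ x, dist (φ (v * x)) (φ x) < ε

/-- P3: the terms of the lower central series from the second one on are connected. -/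
def S_P3 : Prop := ∀ (G : Type) [Group G] [TopologicalSpace G] [IsTopologicalGroup G]
  (A₁ : Subgroup G), (∀ a ∈ A₁, ∀ b ∈ A₁, a * b = b * a) →
  (∀ x : G, ∃ u ∈ connectedComponent (1 : G), ∃ a ∈ A₁, x = u * a) →
  ∀ n : ℕ, 1 ≤ n → IsPreconnected ((lcs G n : Subgroup G) : Set G)

/-- P4: the circle has no small subgroups. -/
def S_P4 : Prop := ∀ z : Circle, (∀ n : ℕ, dist (z ^ n) 1 < 1) → z = 1

/-- P5: characters of a cocompact closed subgroup. -/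
def S_P5 : Prop := ∀ (G : Type) [Group G] [TopologicalSpace G] [IsTopologicalGroup G]
  (Λ S D : Subgroup G) [CompactSpace (G ⧸ Λ)], Λ ≤ S → S ≤ D → IsClosed (S : Set G) →
  IsClosed (D : Set G) → (∀ x ∈ D, ∀ y ∈ D, x * y * x⁻¹ * y⁻¹ ∈ S) → (∃ q ∈ D, q ∉ S) →
  ∃ χ : D →* Circle, Continuous χ ∧ (∀ q : D, (q : G) ∈ S → χ q = 1) ∧ ∃ q : D, χ q ≠ 1

/-- invariance of a set under left translations by `A` and right translations by `Λ` -/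
def Inv {G : Type} [Group G] (A Λ : Subgroup G) (K : Set G) : Prop :=
  (∀ x ∈ K, ∀ a ∈ A, a * x ∈ K) ∧ (∀ x ∈ K, ∀ l ∈ Λ, x * l ∈ K)

/-- P7: existence of minimal closed invariant sets. -/
def S_P7 : Prop := ∀ (G : Type) [Group G] [TopologicalSpace G] [IsTopologicalGroup G]
  (A Λ : Subgroup G) [CompactSpace (G ⧸ Λ)] (K₀ : Set G), IsClosed K₀ → K₀.Nonempty →
  Inv A Λ K₀ →
  ∃ K ⊆ K₀, IsClosed K ∧ K.Nonempty ∧ Inv A Λ K ∧
    ∀ K' ⊆ K, IsClosed K' → K'.Nonempty → Inv A Λ K' → K' = K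

/-- P6: the topological form of Parry's theorem. -/
def S_P : Prop := ∀ (G : Type) [Group G] [TopologicalSpace G] [IsTopologicalGroup G]
  [Group.IsNilpotent G] (A A₁ Λ : Subgroup G) [CompactSpace (G ⧸ Λ)], A ≤ A₁ →
  (∀ a ∈ A₁, ∀ b ∈ A₁, a * b = b * a) →
  (∀ x : G, ∃ u ∈ connectedComponent (1 : G), ∃ a ∈ A₁, x = u * a) →
  Dense ((A ⊔ Λ ⊔ commutator G : Subgroup G) : Set G) →
  ∀ h : G, Dense {x : G | ∃ a ∈ A, ∃ l ∈ Λ, x = a * h * l}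

/-! ## Part A: Lie algebras of strictly upper triangular matrices -/

/-- A1: Mal'cev coordinates of the second kind for an ideal, modulo a rational subgroup. -/
def S_A1 : Prop := ∀ (m : ℕ) (L J : Submodule ℝ (Mat m)), LieSub L → Idl L J →
  ∀ (Λ : Subgroup (Mat m)ˣ) (S : Set (Mat m)), (∀ x ∈ S, x ∈ L) → (∀ x ∈ S, uexp x ∈ Λ) →
  L ≤ Submodule.span ℝ S ⊔ J →
  J ≤ Submodule.span ℝ {z | z ∈ J ∧ uexp z ∈ Λ} ⊔ brk L J →
  ∃ (n : ℕ) (b : Fin n → Mat m), (∀ i, b i ∈ J) ∧ ∀ z ∈ J, ∃ t : Fin n → ℝ,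
    (∀ i, t i ∈ Set.Icc (0 : ℝ) 1) ∧
    ∃ l ∈ Λ, uexp z = (List.ofFn fun i => uexp (t i • b i)).prod * l

/-- A2: the subgroup generated by the commutators contains the exponential of `[L, J]`. -/
def S_A2 : Prop := ∀ (m : ℕ) (L J : Submodule ℝ (Mat m)), LieSub L → Idl L J →
  ∀ (S : Set (Mat m)), (∀ x ∈ S, x ∈ L) → L ≤ Submodule.span ℝ S ⊔ J →
  ∀ D : Subgroup (Mat m)ˣ,
  (∀ x, (x ∈ S ∨ x ∈ J) → ∀ y ∈ J, uexp x * uexp y * uexp (-x) * uexp (-y) ∈ D) →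
  ∀ z ∈ brk L J, uexp z ∈ D

/-- N: groups of unitriangular matrices are nilpotent. -/
def S_N : Prop := ∀ (m : ℕ) (H : Subgroup (Mat m)ˣ),
  (∀ h ∈ H, ((h : (Mat m)ˣ) : Mat m) - 1 ∈ Su m) → Group.IsNilpotent H

/-- L: the ideal generated by a subspace under two commuting elements. -/
def S_L : Prop := ∀ (m : ℕ) (σ δ : Mat m) (G₀ : Submodule ℝ (Mat m)), σ ∈ Su m → δ ∈ Su m →
  G₀ ≤ Su m → σ * δ = δ * σ →
  ∃ J : Submodule ℝ (Mat m), G₀ ≤ J ∧ LieSub (J ⊔ Submodule.span ℝ {σ, δ}) ∧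
    Idl (J ⊔ Submodule.span ℝ {σ, δ}) J ∧ J ≤ G₀ ⊔ brk (J ⊔ Submodule.span ℝ {σ, δ}) J

/-- G: the group generated by the exponential of an ideal and two commuting elements. -/
def S_G : Prop := ∀ (m : ℕ) (σ δ : Mat m) (J : Submodule ℝ (Mat m)), σ * δ = δ * σ →
  LieSub (J ⊔ Submodule.span ℝ {σ, δ}) → Idl (J ⊔ Submodule.span ℝ {σ, δ}) J →
  ∃ G : Subgroup (Mat m)ˣ, ∀ T, T ∈ G ↔
    ∃ f ∈ J, ∃ a b : ℤ, T = uexp f * uexp ((a : ℝ) • σ + (b : ℝ) • δ)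

/-! ## Part R: reduction to matrices -/

/-- the reduced data: `e` is a real Lie algebra of strictly upper triangular matrices normalised by
`M`, `H = exp e ⋊ ⟨exp M⟩`, and `Gm` is a cocompact subgroup of `H` such that every nonzero power of
the translation by `exp M` on `H / Gm` has a dense orbit. -/
structure Red {N : ℕ} (e : Submodule ℝ (Mat N)) (M : Mat N) (H Gm : Subgroup (Mat N)ˣ) : Prop where
  e_le : e ≤ Su N
  M_mem : M ∈ Su N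
  br : ∀ x ∈ e, ∀ y ∈ e, x * y - y * x ∈ e
  brM : ∀ x ∈ e, M * x - x * M ∈ e
  M_not : M ∉ e
  memH : ∀ h : (Mat N)ˣ, h ∈ H ↔ ∃ X ∈ e, ∃ k : ℤ, h = uexp X * uexp ((k : ℝ) • M)
  le : Gm ≤ H
  comp : CompactSpace (H ⧸ Gm.subgroupOf H)
  trans : ∀ h ∈ H, ∃ X ∈ e, ∃ γ ∈ Gm, h = uexp X * γ
  dense : ∀ r : ℕ, 0 < r → ∀ h ∈ H, ∀ O : Set (Mat N), IsOpen O → ((h : (Mat N)ˣ) : Mat N) ∈ O →
    ∃ n : ℤ, ∃ γ ∈ Gm, (((uexp M) ^ ((r : ℤ) * n) * γ : (Mat N)ˣ) : Mat N) ∈ O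

/-- M: the unitriangular model of a nilpotent Lie group with a group element. -/
def S_M : Prop := ∀ (E : Type) [NormedAddCommGroup E] [NormedSpace ℝ E] [FiniteDimensional ℝ E]
  (G : Type) [Group G] [TopologicalSpace G] [ChartedSpace E G]
  [LieGroup (modelWithCornersSelf ℝ E) ((⊤ : ℕ∞) : WithTop ℕ∞) G] [Group.IsNilpotent G] (g : G),
  ∃ (N : ℕ) (e : Submodule ℝ (Mat N)) (M : Mat N) (H : Subgroup (Mat N)ˣ) (φ : H →* G),
    e ≤ Su N ∧ M ∈ Su N ∧ (∀ x ∈ e, ∀ y ∈ e, x * y - y * x ∈ e) ∧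
    (∀ x ∈ e, M * x - x * M ∈ e) ∧ M ∉ e ∧
    (∀ h : (Mat N)ˣ, h ∈ H ↔ ∃ X ∈ e, ∃ k : ℤ, h = uexp X * uexp ((k : ℝ) • M)) ∧
    Continuous φ ∧ IsOpenMap φ ∧ ∀ h : H, (h : (Mat N)ˣ) = uexp M → φ h = g

/-- X: transitivity of open normal subgroups for totally minimal translations. -/
def S_X : Prop := ∀ (G : Type) [Group G] [TopologicalSpace G] [IsTopologicalGroup G]
  (Γ U : Subgroup G) [CompactSpace (G ⧸ Γ)] [U.Normal], IsOpen (U : Set G) → ∀ g : G,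
  (∀ m : ℕ, 0 < m → ∀ x : G ⧸ Γ, Dense (Set.range (fun n : ℤ => (g ^ m) ^ n • x))) →
  ∀ x : G, ∃ u ∈ U, ∃ γ ∈ Γ, x = u * γ

/-- OE: in a group `H = exp e ⋊ ⟨exp M⟩` the set `exp e` is an open normal subgroup and small
elements of it are the exponentials of small elements. -/
def S_OE : Prop := ∀ (N : ℕ) (e : Submodule ℝ (Mat N)) (M : Mat N) (H : Subgroup (Mat N)ˣ),
  e ≤ Su N → M ∈ Su N → (∀ x ∈ e, ∀ y ∈ e, x * y - y * x ∈ e) →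
  (∀ x ∈ e, M * x - x * M ∈ e) → M ∉ e →
  (∀ h : (Mat N)ˣ, h ∈ H ↔ ∃ X ∈ e, ∃ k : ℤ, h = uexp X * uexp ((k : ℝ) • M)) →
  (∀ h ∈ H, ((h : (Mat N)ˣ) : Mat N) - 1 ∈ Su N) ∧
  (∃ H₀ : Subgroup H, H₀.Normal ∧ IsOpen (H₀ : Set H) ∧ IsPreconnected (H₀ : Set H) ∧
    ∀ h : H, h ∈ H₀ ↔ ∃ X ∈ e, (h : (Mat N)ˣ) = uexp X) ∧
  (∀ X ∈ e, ∀ ε : ℝ, 0 < ε → ∃ O : Set (Mat N), IsOpen O ∧ ((uexp X : (Mat N)ˣ) : Mat N) ∈ O ∧
    ∀ h ∈ H, ((h : (Mat N)ˣ) : Mat N) ∈ O → ∃ Y ∈ e, h = uexp Y ∧ ∀ i j, |Y i j - X i j| < ε)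

/-- RED: reduction of a totally minimal nilsystem to the reduced data. -/
def S_RED : Prop := ∀ (E : Type) [NormedAddCommGroup E] [NormedSpace ℝ E] [FiniteDimensional ℝ E]
  (G : Type) [Group G] [TopologicalSpace G] [ChartedSpace E G]
  [LieGroup (modelWithCornersSelf ℝ E) ((⊤ : ℕ∞) : WithTop ℕ∞) G] [Group.IsNilpotent G]
  (Γ : Subgroup G), CompactSpace (G ⧸ Γ) → ∀ g : G,
  (∀ m : ℕ, 0 < m → ∀ x : G ⧸ Γ, Dense (Set.range (fun n : ℤ => (g ^ m) ^ n • x))) →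
  ∃ (N : ℕ) (e : Submodule ℝ (Mat N)) (M : Mat N) (H Gm : Subgroup (Mat N)ˣ) (φ : H →* G),
    Red e M H Gm ∧ Continuous φ ∧ (∀ h : H, (h : (Mat N)ˣ) = uexp M → φ h = g) ∧
    ∀ h : H, (h : (Mat N)ˣ) ∈ Gm ↔ φ h ∈ Γ

/-- B: the Lie algebra `e` is spanned by the logarithms of the elements of `Gm`. -/
def S_B : Prop := ∀ (N : ℕ) (e : Submodule ℝ (Mat N)) (M : Mat N) (H Gm : Subgroup (Mat N)ˣ),
  Red e M H Gm → e ≤ Submodule.span ℝ {X | X ∈ e ∧ uexp X ∈ Gm}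

/-- DN1: the element `M` modulo `e` can be chosen in the logarithm of `Gm`. -/
def S_DN1 : Prop := ∀ (N : ℕ) (e : Submodule ℝ (Mat N)) (M : Mat N) (H Gm : Subgroup (Mat N)ˣ),
  Red e M H Gm → ∃ Y₀ ∈ e, uexp (M - Y₀) ∈ Gm

/-- DN2: density in the Lie algebra, multiplicative form. -/
def S_DN2 : Prop := ∀ (N : ℕ) (e : Submodule ℝ (Mat N)) (M : Mat N) (H Gm : Subgroup (Mat N)ˣ),
  Red e M H Gm → ∀ X ∈ e,
    X ∈ closure {Y : Mat N | Y ∈ e ∧ ∃ n : ℤ, ∃ γ ∈ Gm, uexp Y = (uexp M) ^ n * γ}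

/-- DN3: density in the Lie algebra, additive form modulo brackets. -/
def S_DN3 : Prop := ∀ (N : ℕ) (e : Submodule ℝ (Mat N)) (M : Mat N) (H Gm : Subgroup (Mat N)ˣ),
  Red e M H Gm → ∀ Y₀ ∈ e, uexp (M - Y₀) ∈ Gm → ∀ r : ℕ, 0 < r → ∀ X ∈ e,
    X ∈ closure {Y : Mat N | ∃ n : ℤ, ∃ X₁ ∈ e, uexp X₁ ∈ Gm ∧
      ∃ w ∈ brk (e ⊔ Submodule.span ℝ {M}) e, Y = (((r : ℤ) * n : ℤ) : ℝ) • Y₀ + X₁ + w}

/-! ## Part O: operators on polynomial functions -/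

/-- a space of polynomial vector functions with its derivation and multiplication operators, in
coordinates in which they are strictly upper triangular -/
structure OpData (N d D : ℕ) where
  /-- the dimension -/
  m : ℕ
  /-- the vector functions: one function `ℝ → ℝ^N` for every `i : Fin d` -/
  ev : (Fin m → ℝ) →ₗ[ℝ] (Fin d → ℝ → Fin N → ℝ)
  inj : Function.Injective ev
  const : ∀ y : Fin N → ℝ, ∃ v, ∀ i x, ev v i x = y
  /-- the derivation -/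
  s : Mat m
  s_mem : s ∈ Su m
  s_deriv : ∀ v i x, HasDerivAt (fun y => ev v i y) (ev (s.mulVec v) i x) x
  s_exp : ∀ v i x, ev ((IsNilpotent.exp s).mulVec v) i x = ev v i (x + 1)
  mulop : ∀ q : Fin d → Polynomial ℝ, (∀ i, (q i).natDegree ≤ D) → ∀ Z ∈ Su N,
    ∃ T ∈ Su m, ∀ v i x, ev (T.mulVec v) i x = ((q i).eval x • Z).mulVec (ev v i x)

/-- V: existence of the operators. -/
def S_V : Prop := ∀ N d D : ℕ, Nonempty (OpData N d D)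

/-- the operators attached to polynomials `p i`: `dl Z` is the multiplication by `Z`, `kp Z` the
multiplication by `p i' • Z`, `s` the derivation. -/
structure OpPkg (N d : ℕ) (p : Fin d → Polynomial ℝ) where
  /-- the dimension -/
  m : ℕ
  /-- the vector functions -/
  ev : (Fin m → ℝ) →ₗ[ℝ] (Fin d → ℝ → Fin N → ℝ)
  inj : Function.Injective ev
  const : ∀ y : Fin N → ℝ, ∃ v, ∀ i x, ev v i x = y
  /-- the derivation -/
  s : Mat m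
  /-- multiplication by constant matrices -/
  dl : Mat N →ₗ[ℝ] Mat m
  /-- multiplication by `p i' • Z` -/
  kp : Mat N →ₗ[ℝ] Mat m
  s_mem : s ∈ Su m
  dl_mem : ∀ Z ∈ Su N, dl Z ∈ Su m
  kp_mem : ∀ Z ∈ Su N, kp Z ∈ Su m
  br_dd : ∀ Z ∈ Su N, ∀ Z' ∈ Su N, dl Z * dl Z' - dl Z' * dl Z = dl (Z * Z' - Z' * Z)
  br_dk : ∀ Z ∈ Su N, ∀ Z' ∈ Su N, dl Z * kp Z' - kp Z' * dl Z = kp (Z * Z' - Z' * Z)
  br_sd : ∀ Z ∈ Su N, s * dl Z = dl Z * s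
  /-- `exp (dl Z)` is the multiplication by `exp Z` -/
  exp_dl : ∀ Z ∈ Su N, ∀ v i x,
    ev ((IsNilpotent.exp (dl Z)).mulVec v) i x = (IsNilpotent.exp Z).mulVec (ev v i x)
  /-- `exp (n (s + kp Z))` is the multiplication by `exp ((p (x + n) - p x) Z)` composed with the
  translation by `n` -/
  exp_sk : ∀ Z ∈ Su N, ∀ (n : ℕ) v i x,
    ev ((IsNilpotent.exp ((n : ℝ) • (s + kp Z))).mulVec v) i x =
      (IsNilpotent.exp (((p i).eval (x + n) - (p i).eval x) • Z)).mulVec (ev v i (x + n))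

/-- O: the operator package. -/
def S_O : Prop := ∀ (N d D : ℕ) (p : Fin d → Polynomial ℝ), (∀ i, (p i).natDegree ≤ D) →
  OpData N d D → Nonempty (OpPkg N d p)

namespace OpPkg

variable {N d : ℕ} {p : Fin d → Polynomial ℝ} (P : OpPkg N d p)

/-- the operator `T` is the multiplication by `f` composed with the translation by `t` -/
def Sy (T : Mat P.m) (f : Fin d → ℝ → Mat N) (t : ℝ) : Prop :=
  ∀ v i x, P.ev (T.mulVec v) i x = (f i x).mulVec (P.ev v i (x + t))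

theorem Sy.mul {T T' : Mat P.m} {f f' : Fin d → ℝ → Mat N} {t t' : ℝ} (h : P.Sy T f t)
    (h' : P.Sy T' f' t') : P.Sy (T * T') (fun i x => f i x * f' i (x + t)) (t + t') := by
  intro v i x
  rw [← Matrix.mulVec_mulVec, h, h', Matrix.mulVec_mulVec, add_assoc]

theorem Sy.one : P.Sy 1 (fun _ _ => 1) 0 := by
  intro v i x
  rw [Matrix.one_mulVec, Matrix.one_mulVec, add_zero]

/-- the operators with integer translation and symbol in `Gm` at the integers -/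
def Lam (Gm : Subgroup (Mat N)ˣ) : Subgroup (Mat P.m)ˣ where
  carrier := {T | ∃ (n : ℤ) (q : Fin d → ℝ → (Mat N)ˣ), (∀ i (z : ℤ), q i (z : ℝ) ∈ Gm) ∧
    P.Sy (T : Mat P.m) (fun i x => ((q i x : (Mat N)ˣ) : Mat N)) (n : ℝ)}
  one_mem' := ⟨0, fun _ _ => 1, fun _ _ => Gm.one_mem, by
    rw [Int.cast_zero]
    exact Sy.one P⟩
  mul_mem' := by
    rintro T T' ⟨n, q, hq, h⟩ ⟨n', q', hq', h'⟩
    refine ⟨n + n', fun i x => q i x * q' i (x + n), fun i z => ?_, ?_⟩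
    · have h1 := hq' i (z + n)
      rw [Int.cast_add] at h1
      exact Gm.mul_mem (hq i z) h1
    · have h1 := h.mul P h'
      intro v i x
      have h2 := h1 v i x
      rw [Units.val_mul, h2, Int.cast_add]
      rfl
  inv_mem' := by
    rintro T ⟨n, q, hq, h⟩
    refine ⟨-n, fun i x => (q i (x - n))⁻¹, fun i z => ?_, ?_⟩
    · have h1 := hq i (z - n)
      rw [Int.cast_sub] at h1
      exact Gm.inv_mem h1
    · intro v i x
      have h1 := h ((T⁻¹ : (Mat P.m)ˣ).val.mulVec v) i (x - n)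
      rw [Matrix.mulVec_mulVec, ← Units.val_mul, mul_inv_cancel, Units.val_one,
        Matrix.one_mulVec, sub_add_cancel] at h1
      rw [Int.cast_neg, ← sub_eq_add_neg, h1, Matrix.mulVec_mulVec, ← Units.val_mul,
        inv_mul_cancel, Units.val_one, Matrix.one_mulVec]

theorem mem_Lam {Gm : Subgroup (Mat N)ˣ} {T : (Mat P.m)ˣ} : T ∈ P.Lam Gm ↔
    ∃ (n : ℤ) (q : Fin d → ℝ → (Mat N)ˣ), (∀ i (z : ℤ), q i (z : ℝ) ∈ Gm) ∧
    P.Sy (T : Mat P.m) (fun i x => ((q i x : (Mat N)ˣ) : Mat N)) (n : ℝ) := Iff.rfl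

/-- the generating subspace `dl e + kp e` -/
def G₀ (e : Submodule ℝ (Mat N)) : Submodule ℝ (Mat P.m) := e.map P.dl ⊔ e.map P.kp

end OpPkg

/-- the standing situation of part K: an ideal `J ⊇ dl e + kp e` in `L = J + ℝ σ + ℝ δ`, where
`σ = s + kp (M - Y₀)`, `δ = dl (M - Y₀)` and `exp (M - Y₀) ∈ Gm` -/
structure Sit {N d : ℕ} {p : Fin d → Polynomial ℤ}
    (P : OpPkg N d (fun i => (p i).map (Int.castRingHom ℝ)))
    (e : Submodule ℝ (Mat N)) (M : Mat N) (H Gm : Subgroup (Mat N)ˣ) (Y₀ : Mat N)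
    (σ δ : Mat P.m) (J L : Submodule ℝ (Mat P.m)) : Prop where
  red : Red e M H Gm
  Y₀_mem : Y₀ ∈ e
  Mγ_mem : uexp (M - Y₀) ∈ Gm
  σ_eq : σ = P.s + P.kp (M - Y₀)
  δ_eq : δ = P.dl (M - Y₀)
  G₀_le : P.G₀ e ≤ J
  L_eq : L = J ⊔ Submodule.span ℝ {σ, δ}
  lie : LieSub L
  idl : Idl L J

/-- K: rationality of the generators. -/
def S_K : Prop := ∀ (N d : ℕ) (p : Fin d → Polynomial ℤ)
  (P : OpPkg N d (fun i => (p i).map (Int.castRingHom ℝ)))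
  (e : Submodule ℝ (Mat N)) (M : Mat N) (H Gm : Subgroup (Mat N)ˣ) (Y₀ : Mat N)
  (σ δ : Mat P.m) (J L : Submodule ℝ (Mat P.m)), Sit P e M H Gm Y₀ σ δ J L →
  σ * δ = δ * σ ∧ uexp σ ∈ P.Lam Gm ∧ uexp δ ∈ P.Lam Gm ∧
  (∀ w ∈ brk (e ⊔ Submodule.span ℝ {M}) e, P.kp w ∈ brk L J) ∧
  ∀ X ∈ e, uexp X ∈ Gm → uexp (P.dl X) ∈ P.Lam Gm ∧
    ∃ w ∈ J, uexp w ∈ P.Lam Gm ∧ w - P.kp X ∈ brk L J

/-- C: compactness of the quotient. -/
def S_C : Prop := ∀ (m : ℕ) (σ δ : Mat m) (J : Submodule ℝ (Mat m)) (G Λ : Subgroup (Mat m)ˣ),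
  J ≤ Su m → σ ∈ Su m → δ ∈ Su m → σ * δ = δ * σ → uexp σ ∈ Λ → uexp δ ∈ Λ →
  (∀ T, T ∈ G ↔ ∃ f ∈ J, ∃ a b : ℤ, T = uexp f * uexp ((a : ℝ) • σ + (b : ℝ) • δ)) →
  (∃ (n : ℕ) (b : Fin n → Mat m), (∀ i, b i ∈ J) ∧ ∀ z ∈ J, ∃ t : Fin n → ℝ,
    (∀ i, t i ∈ Set.Icc (0 : ℝ) 1) ∧
    ∃ l ∈ Λ, uexp z = (List.ofFn fun i => uexp (t i • b i)).prod * l) →
  CompactSpace (G ⧸ Λ.subgroupOf G)

/-- D: density of the subgroup generated by the acting group, the lattice and the commutators. -/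
def S_D : Prop := ∀ (N d : ℕ) (p : Fin d → Polynomial ℤ)
  (P : OpPkg N d (fun i => (p i).map (Int.castRingHom ℝ)))
  (e : Submodule ℝ (Mat N)) (M : Mat N) (H Gm : Subgroup (Mat N)ˣ) (Y₀ : Mat N)
  (σ δ : Mat P.m) (J L : Submodule ℝ (Mat P.m)), Sit P e M H Gm Y₀ σ δ J L →
  J ≤ P.G₀ e ⊔ brk L J → ∀ G : Subgroup (Mat P.m)ˣ,
  (∀ T, T ∈ G ↔ ∃ f ∈ J, ∃ a b : ℤ, T = uexp f * uexp ((a : ℝ) • σ + (b : ℝ) • δ)) →
  ∀ r : ℕ, 0 < r → ∀ D : Subgroup (Mat P.m)ˣ, (∀ z ∈ brk L J, uexp z ∈ D) →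
  uexp ((r : ℝ) • (P.s + P.kp M)) ∈ D → uexp (P.dl M) ∈ D →
  (∀ T ∈ G, T ∈ P.Lam Gm → T ∈ D) →
  (∀ T ∈ G, T ∈ closure (D : Set (Mat P.m)ˣ) → T ∈ D) →
  ∀ f ∈ J, uexp f ∈ D

/-- F: from dense orbits to dense forward orbits. -/
def S_F : Prop := ∀ (G : Type) [Group G] [TopologicalSpace G] [IsTopologicalGroup G]
  (Λ : Subgroup G) [CompactSpace (G ⧸ Λ)] (Q Δ : G), Q * Δ = Δ * Q →
  (∀ h : G, Dense {x : G | ∃ a b : ℤ, ∃ l ∈ Λ, x = Q ^ a * Δ ^ b * h * l}) →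
  ∀ (h : G) (O : Set G), IsOpen O → O.Nonempty →
  ∃ i : ℕ, 0 < i ∧ ∃ b : ℤ, ∃ l ∈ Λ, Q ^ i * Δ ^ b * h * l ∈ O

/-- TRG: the recurrence statement for the reduced data. -/
def S_TRG : Prop := ∀ (N : ℕ) (e : Submodule ℝ (Mat N)) (M : Mat N) (H Gm : Subgroup (Mat N)ˣ),
  Red e M H Gm → ∀ (d : ℕ) (p : Fin d → Polynomial ℤ), (∀ i, (p i).eval 0 = 0) →
  ∀ k : ℕ, 0 < k → ∀ j : ℕ, j < k → ∀ V : Set (Mat N), IsOpen V → (1 : Mat N) ∈ V →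
  ∃ n : ℕ, 0 < n ∧ ∃ l : ℤ,
    (∃ γ ∈ Gm, (((uexp M) ^ l * γ : (Mat N)ˣ) : Mat N) ∈ V) ∧
    ∀ i, ∃ γ ∈ Gm, (((uexp M) ^ ((p i).eval ((k : ℤ) * (n : ℤ) + (j : ℤ)) + l) * γ : (Mat N)ˣ) :
      Mat N) ∈ V

end Pool.Agent.Y329.NS
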