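import Pool.Agent.Y329.NS.Stm

/-!
# Project NS: the recurrence statement for the reduced data
-/

set_option autoImplicit false

namespace Pool.Agent.Y329.NS

open Topology Filter

/-- the subgroup generated by two commuting elements -/
def grp2 {G : Type} [Group G] (x y : G) (h : Commute x y) : Subgroup G where
  carrier := {z | ∃ a b : ℤ, z = x ^ a * y ^ b}
  one_mem' := ⟨0, 0, by simp⟩
  mul_mem' := by
    rintro _ _ ⟨a, b, rfl⟩ ⟨a', b', rfl⟩
    refine ⟨a + a', b + b', ?_⟩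
    have h1 : y ^ b * x ^ a' = x ^ a' * y ^ b := (h.zpow_zpow a' b).eq.symm
    calc x ^ a * y ^ b * (x ^ a' * y ^ b') = x ^ a * (y ^ b * x ^ a') * y ^ b' := by group
      _ = x ^ a * (x ^ a' * y ^ b) * y ^ b' := by rw [h1]
      _ = x ^ (a + a') * y ^ (b + b') := by rw [zpow_add, zpow_add]; group
  inv_mem' := by
    rintro _ ⟨a, b, rfl⟩
    refine ⟨-a, -b, ?_⟩
    rw [mul_inv_rev, ← zpow_neg, ← zpow_neg]
    exact (h.zpow_zpow (-a) (-b)).eq.symm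

theorem mem_grp2 {G : Type} [Group G] {x y : G} {h : Commute x y} {z : G} :
    z ∈ grp2 x y h ↔ ∃ a b : ℤ, z = x ^ a * y ^ b := Iff.rfl

theorem grp2_comm {G : Type} [Group G] {x y : G} {h : Commute x y} :
    ∀ a ∈ grp2 x y h, ∀ b ∈ grp2 x y h, a * b = b * a := by
  rintro _ ⟨a, b, rfl⟩ _ ⟨a', b', rfl⟩
  have h1 : Commute (x ^ a * y ^ b) (x ^ a' * y ^ b') := by
    refine Commute.mul_right (Commute.mul_left ?_ ?_) (Commute.mul_left ?_ ?_)
    · exact (Commute.refl x).zpow_zpow a a'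
    · exact (h.symm).zpow_zpow b a'
    · exact h.zpow_zpow a b'
    · exact (Commute.refl y).zpow_zpow b b'
  exact h1.eq

namespace OpPkg

variable {N d : ℕ} {p : Fin d → Polynomial ℝ} (P : OpPkg N d p)

/-- the constant vector functions -/
noncomputable def cv (c : Fin N) : Fin P.m → ℝ := (P.const (Pi.single c 1)).choose

theorem cv_spec (c : Fin N) (i : Fin d) (x : ℝ) : P.ev (P.cv c) i x = Pi.single c 1 :=
  (P.const (Pi.single c 1)).choose_spec i x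

/-- the symbol at `0` -/
noncomputable def sym0 (T : Mat P.m) (i : Fin d) : Mat N :=
  Matrix.of fun a c => P.ev (T.mulVec (P.cv c)) i 0 a

theorem sym0_eq {T : Mat P.m} {f : Fin d → ℝ → Mat N} {t : ℝ} (h : P.Sy T f t) (i : Fin d) :
    P.sym0 T i = f i 0 := by
  ext a c
  show P.ev (T.mulVec (P.cv c)) i 0 a = f i 0 a c
  rw [h, P.cv_spec, Matrix.mulVec_single_one]
  rfl

theorem continuous_sym0 (i : Fin d) : Continuous fun T : Mat P.m => P.sym0 T i := by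
  refine continuous_matrix fun a c => ?_
  let l : (Fin P.m → ℝ) →ₗ[ℝ] ℝ :=
    { toFun := fun v => P.ev v i 0 a
      map_add' := fun v w => by rw [map_add]; rfl
      map_smul' := fun r v => by rw [map_smul]; rfl }
  have hl : Continuous l := LinearMap.continuous_of_finiteDimensional l
  exact hl.comp (Continuous.matrix_mulVec continuous_id continuous_const)

theorem Sy.congr {T : Mat P.m} {f g : Fin d → ℝ → Mat N} {t : ℝ} (h : P.Sy T f t)
    (hfg : ∀ i x, f i x = g i x) : P.Sy T g t := by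
  intro v i x
  rw [h v i x, hfg]

end OpPkg

section lie

variable {m : ℕ} {L J : Submodule ℝ (Mat m)}

/-- `exp (τ + w) = exp f exp τ` for `w` in an ideal -/
theorem uexp_left (hL : LieSub L) (hJ : Idl L J) {τ w : Mat m} (hτ : τ ∈ L) (hw : w ∈ J) :
    ∃ f ∈ J, uexp (τ + w) = uexp f * uexp τ := by
  obtain ⟨j, hj, h⟩ := uexp_mul hL hJ (L.add_mem hτ (hJ.le hw)) (L.neg_mem hτ) (by
    have e : (τ + w) * -τ - -τ * (τ + w) = τ * w - w * τ := by noncomm_ring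
    rw [e]
    exact hJ.br τ hτ w hw)
  refine ⟨w + j, J.add_mem hw hj, ?_⟩
  have e : τ + w + -τ + j = w + j := by abel
  rw [e] at h
  rw [← h, ← uexp_inv, inv_mul_cancel_right]

/-- products of exponentials of elements of the ideal -/
theorem uexp_mulJ (hL : LieSub L) (hJ : Idl L J) {x y : Mat m} (hx : x ∈ J) (hy : y ∈ J) :
    ∃ z ∈ J, uexp x * uexp y = uexp z := by
  obtain ⟨j, hj, h⟩ := uexp_mul hL hJ (hJ.le hx) (hJ.le hy) (hJ.br x (hJ.le hx) y hy)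
  exact ⟨_, J.add_mem (J.add_mem hx hy) hj, h⟩

end lie

/-- `exp f` is in the connected component of `1` -/
theorem uexp_conn {m : ℕ} {J : Submodule ℝ (Mat m)} (hJ : J ≤ Su m) (G : Subgroup (Mat m)ˣ)
    (hG : ∀ f ∈ J, uexp f ∈ G) {f : Mat m} (hf : f ∈ J) :
    (⟨uexp f, hG f hf⟩ : G) ∈ connectedComponent (1 : G) := by
  have hc : Continuous fun t : ℝ => (⟨uexp (t • f), hG _ (J.smul_mem t hf)⟩ : G) := by
    refine Continuous.subtype_mk ?_ _
    exact uexp_continuous (f := fun t : ℝ => t • f) (by fun_prop)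
      (fun t => hJ (J.smul_mem t hf))
  have h1 := (isPreconnected_univ (α := ℝ)).image _ hc.continuousOn
  refine h1.subset_connectedComponent ⟨0, trivial, ?_⟩ ⟨1, trivial, ?_⟩
  · apply Subtype.ext
    show uexp ((0 : ℝ) • f) = 1
    rw [zero_smul, uexp_zero]
  · apply Subtype.ext
    show uexp ((1 : ℝ) • f) = uexp f
    rw [one_smul]

theorem comm_mem_map {X : Type} [Group X] (G : Subgroup X) (D : Subgroup G)
    (h : commutator G ≤ D) {x y : X} (hx : x ∈ G) (hy : y ∈ G) :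
    x * y * x⁻¹ * y⁻¹ ∈ D.map G.subtype := by
  refine ⟨(⟨x, hx⟩ : G) * ⟨y, hy⟩ * (⟨x, hx⟩ : G)⁻¹ * (⟨y, hy⟩ : G)⁻¹, h ?_, rfl⟩
  rw [commutator_def]
  exact Subgroup.commutator_mem_commutator (Subgroup.mem_top _) (Subgroup.mem_top _)

theorem trg (hP : S_P) (hF : S_F) (hA1 : S_A1) (hA2 : S_A2) (hN : S_N) (hL : S_L) (hG : S_G)
    (hB : S_B) (hDN1 : S_DN1) (hV : S_V) (hO : S_O) (hK : S_K) (hC : S_C) (hD : S_D) :
    S_TRG := by
  classical
  intro N e M H Gm hR d p0 hp0 k hk j hj V hVo h1V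
  -- the extended family
  let p : Fin (d + 1) → Polynomial ℤ := Fin.cons 0 p0
  have hp : ∀ i, (p i).eval 0 = 0 := by
    intro i
    refine Fin.cases ?_ (fun i => ?_) i
    · show (0 : Polynomial ℤ).eval 0 = 0
      exact Polynomial.eval_zero
    · exact hp0 i
  -- the operators
  obtain ⟨O⟩ := hV N (d + 1) (Finset.univ.sup fun i => ((p i).map (Int.castRingHom ℝ)).natDegree)
  obtain ⟨P⟩ := hO N (d + 1) _ (fun i => (p i).map (Int.castRingHom ℝ))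
    (fun i => Finset.le_sup (f := fun i => ((p i).map (Int.castRingHom ℝ)).natDegree)
      (Finset.mem_univ i)) O
  obtain ⟨Y₀, hY₀, hMγ⟩ := hDN1 N e M H Gm hR
  have hMS : M ∈ Su N := hR.M_mem
  have hYS : Y₀ ∈ Su N := hR.e_le hY₀
  have hZS : M - Y₀ ∈ Su N := Submodule.sub_mem _ hMS hYS
  -- commutation
  have hcomm : ∀ Z ∈ Su N, (P.s + P.kp Z) * P.dl Z = P.dl Z * (P.s + P.kp Z) := by
    intro Z hZ
    have h1 := P.br_dk Z hZ Z hZ
    rw [sub_self, map_zero, sub_eq_zero] at h1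
    rw [add_mul, mul_add, P.br_sd Z hZ, h1]
  obtain ⟨σ, hσ⟩ : ∃ σ, σ = P.s + P.kp (M - Y₀) := ⟨_, rfl⟩
  obtain ⟨δ, hδ⟩ : ∃ δ, δ = P.dl (M - Y₀) := ⟨_, rfl⟩
  have hσδ : σ * δ = δ * σ := by
    rw [hσ, hδ]
    exact hcomm _ hZS
  have hσS : σ ∈ Su P.m := by
    rw [hσ]
    exact Submodule.add_mem _ P.s_mem (P.kp_mem _ hZS)
  have hδS : δ ∈ Su P.m := by
    rw [hδ]
    exact P.dl_mem _ hZS
  have hG₀S : P.G₀ e ≤ Su P.m := by
    refine sup_le ?_ ?_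
    · rintro _ ⟨X, hX, rfl⟩
      exact P.dl_mem X (hR.e_le hX)
    · rintro _ ⟨X, hX, rfl⟩
      exact P.kp_mem X (hR.e_le hX)
  obtain ⟨J, hG₀, hLie, hIdl, hJ⟩ := hL P.m σ δ (P.G₀ e) hσS hδS hG₀S hσδ
  obtain ⟨L, hLeq⟩ : ∃ L, L = J ⊔ Submodule.span ℝ {σ, δ} := ⟨_, rfl⟩
  obtain ⟨G, hGm⟩ := hG P.m σ δ J hσδ hLie hIdl
  rw [← hLeq] at hLie hIdl hJ
  have hSit : Sit P e M H Gm Y₀ σ δ J L :=
    ⟨hR, hY₀, hMγ, hσ, hδ, hG₀, hLeq, hLie, hIdl⟩
  obtain ⟨-, hσΛ, hδΛ, hkpw, hgen⟩ := hK N (d + 1) p P e M H Gm Y₀ σ δ J L hSit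
  have hJL : J ≤ L := hIdl.le
  have hJS : J ≤ Su P.m := hJL.trans hLie.le
  have hσL : σ ∈ L := by
    rw [hLeq]
    exact Submodule.mem_sup_right (Submodule.subset_span (by simp))
  have hδL : δ ∈ L := by
    rw [hLeq]
    exact Submodule.mem_sup_right (Submodule.subset_span (by simp))
  have hdlJ : ∀ X ∈ e, P.dl X ∈ J := fun X hX =>
    hG₀ (Submodule.mem_sup_left (Submodule.mem_map_of_mem hX))
  have hkpJ : ∀ X ∈ e, P.kp X ∈ J := fun X hX =>
    hG₀ (Submodule.mem_sup_right (Submodule.mem_map_of_mem hX))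
  -- rationality
  have hspan : J ≤ Submodule.span ℝ {z | z ∈ J ∧ uexp z ∈ P.Lam Gm} ⊔ brk L J := by
    refine hJ.trans (sup_le (sup_le ?_ ?_) le_sup_right)
    · refine (Submodule.map_mono (hB N e M H Gm hR)).trans ?_
      rw [Submodule.map_span, Submodule.span_le]
      rintro _ ⟨X, ⟨hX, hXG⟩, rfl⟩
      exact Submodule.mem_sup_left (Submodule.subset_span ⟨hdlJ X hX, (hgen X hX hXG).1⟩)
    · refine (Submodule.map_mono (hB N e M H Gm hR)).trans ?_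
      rw [Submodule.map_span, Submodule.span_le]
      rintro _ ⟨X, ⟨hX, hXG⟩, rfl⟩
      obtain ⟨-, w, hw, hwΛ, hw'⟩ := hgen X hX hXG
      have h1 : P.kp X = w - (w - P.kp X) := by abel
      rw [SetLike.mem_coe, h1]
      exact Submodule.sub_mem _ (Submodule.mem_sup_left (Submodule.subset_span ⟨hw, hwΛ⟩))
        (Submodule.mem_sup_right hw')
  have hLS : L ≤ Submodule.span ℝ ({σ, δ} : Set (Mat P.m)) ⊔ J := by
    rw [hLeq, sup_comm]
  have hS1 : ∀ x ∈ ({σ, δ} : Set (Mat P.m)), x ∈ L := by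
    rintro x (rfl | rfl)
    · exact hσL
    · exact hδL
  have hS2 : ∀ x ∈ ({σ, δ} : Set (Mat P.m)), uexp x ∈ P.Lam Gm := by
    rintro x (rfl | rfl)
    · exact hσΛ
    · exact hδΛ
  have hcomp : CompactSpace (G ⧸ (P.Lam Gm).subgroupOf G) :=
    hC P.m σ δ J G (P.Lam Gm) hJS hσS hδS hσδ hσΛ hδΛ hGm
      (hA1 P.m L J hLie hIdl (P.Lam Gm) {σ, δ} hS1 hS2 hLS hspan)
  -- elements of `G`
  have hτL : ∀ a b : ℤ, (a : ℝ) • σ + (b : ℝ) • δ ∈ L := fun a b =>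
    L.add_mem (L.smul_mem _ hσL) (L.smul_mem _ hδL)
  have hJG : ∀ f ∈ J, uexp f ∈ G := by
    intro f hf
    rw [hGm]
    refine ⟨f, hf, 0, 0, ?_⟩
    rw [Int.cast_zero, zero_smul, zero_smul, add_zero, uexp_zero, mul_one]
  have hτG : ∀ a b : ℤ, uexp ((a : ℝ) • σ + (b : ℝ) • δ) ∈ G := by
    intro a b
    rw [hGm]
    refine ⟨0, J.zero_mem, a, b, ?_⟩
    rw [uexp_zero, one_mul]
  have hτadd : ∀ a b : ℤ, uexp ((a : ℝ) • σ + (b : ℝ) • δ) = uexp σ ^ a * uexp δ ^ b := by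
    intro a b
    rw [uexp_zpow hσS, uexp_zpow hδS, uexp_add (Submodule.smul_mem _ _ hσS)
      (Submodule.smul_mem _ _ hδS)]
    rw [smul_mul_smul_comm, smul_mul_smul_comm, hσδ, mul_comm (a : ℝ)]
  have hσG : uexp σ ∈ G := by
    have := hτG 1 0
    rwa [hτadd, zpow_one, zpow_zero, mul_one] at this
  have hδG : uexp δ ∈ G := by
    have := hτG 0 1
    rwa [hτadd, zpow_one, zpow_zero, one_mul] at this
  have hnil : Group.IsNilpotent G := by
    refine hN P.m G fun T hT => ?_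
    obtain ⟨f, hf, a, b, rfl⟩ := (hGm T).1 hT
    rw [Units.val_mul]
    exact mul_sub_one (uexp_sub_one (hJS hf)) (uexp_sub_one (hLie.le (hτL a b)))
  -- the acting group
  obtain ⟨τ₁, hτ₁⟩ : ∃ τ₁, τ₁ = P.s + P.kp M := ⟨_, rfl⟩
  obtain ⟨τ₂, hτ₂⟩ : ∃ τ₂, τ₂ = P.dl M := ⟨_, rfl⟩
  have hτ₁' : τ₁ = σ + P.kp Y₀ := by
    rw [hτ₁, hσ, map_sub]
    abel
  have hτ₂' : τ₂ = δ + P.dl Y₀ := by
    rw [hτ₂, hδ, map_sub]
    abel
  have hτ₁S : τ₁ ∈ Su P.m := by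
    rw [hτ₁]
    exact Submodule.add_mem _ P.s_mem (P.kp_mem _ hMS)
  have hτ₂S : τ₂ ∈ Su P.m := by
    rw [hτ₂]
    exact P.dl_mem _ hMS
  have hτ₁₂ : τ₁ * τ₂ = τ₂ * τ₁ := by
    rw [hτ₁, hτ₂]
    exact hcomm M hMS
  have hRΔ : ∀ a b : ℤ, uexp ((a : ℝ) • τ₁ + (b : ℝ) • τ₂) = uexp τ₁ ^ a * uexp τ₂ ^ b := by
    intro a b
    rw [uexp_zpow hτ₁S, uexp_zpow hτ₂S, uexp_add (Submodule.smul_mem _ _ hτ₁S)
      (Submodule.smul_mem _ _ hτ₂S)]
    rw [smul_mul_smul_comm, smul_mul_smul_comm, hτ₁₂, mul_comm (a : ℝ)]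
  have hkey : ∀ a b : ℤ, ∃ f ∈ J, uexp τ₁ ^ a * uexp τ₂ ^ b =
      uexp f * uexp ((a : ℝ) • σ + (b : ℝ) • δ) := by
    intro a b
    obtain ⟨f, hf, h1⟩ := uexp_left hLie hIdl (hτL a b)
      (J.add_mem (J.smul_mem (a : ℝ) (hkpJ Y₀ hY₀)) (J.smul_mem (b : ℝ) (hdlJ Y₀ hY₀)))
    refine ⟨f, hf, ?_⟩
    rw [← h1, ← hRΔ]
    congr 1
    rw [hτ₁', hτ₂', smul_add, smul_add]
    abel
  have hRG : uexp τ₁ ∈ G := by
    obtain ⟨f, hf, h1⟩ := hkey 1 0
    rw [zpow_one, zpow_zero, mul_one] at h1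
    rw [h1]
    exact G.mul_mem (hJG f hf) (hτG 1 0)
  have hΔG : uexp τ₂ ∈ G := by
    obtain ⟨f, hf, h1⟩ := hkey 0 1
    rw [zpow_one, zpow_zero, one_mul] at h1
    rw [h1]
    exact G.mul_mem (hJG f hf) (hτG 0 1)
  let Rg : G := ⟨uexp τ₁, hRG⟩
  let Dg : G := ⟨uexp τ₂, hΔG⟩
  have hRD : Commute Rg Dg := by
    apply Subtype.ext
    show uexp τ₁ * uexp τ₂ = uexp τ₂ * uexp τ₁
    rw [← uexp_add hτ₁S hτ₂S hτ₁₂, ← uexp_add hτ₂S hτ₁S hτ₁₂.symm, add_comm τ₁ τ₂]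
  let A₁ : Subgroup G := grp2 Rg Dg hRD
  let A : Subgroup G := grp2 (Rg ^ k) Dg (hRD.pow_left k)
  have hAA : A ≤ A₁ := by
    rintro _ ⟨a, b, rfl⟩
    refine ⟨(k : ℤ) * a, b, ?_⟩
    rw [zpow_mul, zpow_natCast]
  have hdec : ∀ x : G, ∃ u ∈ connectedComponent (1 : G), ∃ a ∈ A₁, x = u * a := by
    rintro ⟨x, hx⟩
    obtain ⟨f, hf, a, b, h1⟩ := (hGm x).1 hx
    obtain ⟨f', hf', h2⟩ := hkey a b
    obtain ⟨f'', hf'', h3⟩ := uexp_mulJ hLie hIdl hf (J.neg_mem hf')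
    refine ⟨⟨uexp f'', hJG f'' hf''⟩, uexp_conn hJS G hJG hf'', Rg ^ a * Dg ^ b, ⟨a, b, rfl⟩, ?_⟩
    apply Subtype.ext
    show x = uexp f'' * (uexp τ₁ ^ a * uexp τ₂ ^ b)
    rw [h1, h2, ← h3, ← uexp_inv]
    group
  -- density
  have hdense : Dense ((A ⊔ (P.Lam Gm).subgroupOf G ⊔ commutator G : Subgroup G) : Set G) := by
    obtain ⟨Dd, hDd⟩ : ∃ Dd : Subgroup G,
      Dd = (A ⊔ (P.Lam Gm).subgroupOf G ⊔ commutator G).topologicalClosure := ⟨_, rfl⟩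
    have hle : A ⊔ (P.Lam Gm).subgroupOf G ⊔ commutator G ≤ Dd := by
      rw [hDd]
      exact Subgroup.le_topologicalClosure _
    have hcl : IsClosed (Dd : Set G) := by
      rw [hDd]
      exact Subgroup.isClosed_topologicalClosure _
    have hAD : A ≤ Dd := (le_sup_left.trans le_sup_left).trans hle
    have hΛD : (P.Lam Gm).subgroupOf G ≤ Dd := (le_sup_right.trans le_sup_left).trans hle
    have hCD : commutator G ≤ Dd := le_sup_right.trans hle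
    have hmem : ∀ T (hT : T ∈ G), (⟨T, hT⟩ : G) ∈ Dd → T ∈ Dd.map G.subtype :=
      fun T hT h => ⟨⟨T, hT⟩, h, rfl⟩
    have hSG : ∀ x, (x ∈ ({σ, δ} : Set (Mat P.m)) ∨ x ∈ J) → uexp x ∈ G := by
      rintro x (h | hx)
      · rw [Set.mem_insert_iff, Set.mem_singleton_iff] at h
        rcases h with h | h
        · rw [h]
          exact hσG
        · rw [h]
          exact hδG
      · exact hJG x hx
    have hall := hD N (d + 1) p P e M H Gm Y₀ σ δ J L hSit hJ G hGm k hk (Dd.map G.subtype)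
      (hA2 P.m L J hLie hIdl {σ, δ} hS1 hLS _ (by
        intro x hx y hy
        rw [← uexp_inv x, ← uexp_inv y]
        exact comm_mem_map G Dd hCD (hSG x hx) (hJG y hy)))
      (by
        rw [← hτ₁, ← uexp_pow hτ₁S]
        exact hmem _ (G.pow_mem hRG k) (hAD ⟨1, 0, by
          rw [zpow_one, zpow_zero, mul_one]; rfl⟩))
      (by
        rw [← hτ₂]
        exact hmem _ hΔG (hAD ⟨0, 1, by rw [zpow_one, zpow_zero, one_mul]⟩))
      (fun T hT hTΛ => hmem T hT (hΛD hTΛ))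
      (by
        intro T hT hTc
        refine hmem T hT ?_
        have h1 : (⟨T, hT⟩ : G) ∈ closure (Dd : Set G) := by
          rw [IsInducing.subtypeVal.closure_eq_preimage_closure_image]
          exact hTc
        rwa [hcl.closure_eq] at h1)
    have huniv : ∀ x : G, x ∈ Dd := by
      rintro ⟨x, hx⟩
      obtain ⟨f, hf, a, b, h1⟩ := (hGm x).1 hx
      obtain ⟨y, hy, hyf⟩ := hall f hf
      have h2 : (⟨uexp ((a : ℝ) • σ + (b : ℝ) • δ), hτG a b⟩ : G) ∈ Dd := by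
        apply hΛD
        show uexp ((a : ℝ) • σ + (b : ℝ) • δ) ∈ P.Lam Gm
        rw [hτadd]
        exact Subgroup.mul_mem _ (Subgroup.zpow_mem _ hσΛ a) (Subgroup.zpow_mem _ hδΛ b)
      have h3 : (⟨x, hx⟩ : G) = y * ⟨uexp ((a : ℝ) • σ + (b : ℝ) • δ), hτG a b⟩ := by
        apply Subtype.ext
        show x = (y : (Mat P.m)ˣ) * _
        rw [h1]
        congr 1
        exact hyf.symm
      rw [h3]
      exact Dd.mul_mem hy h2
    rw [dense_iff_closure_eq, Set.eq_univ_iff_forall]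
    intro x
    have h1 := huniv x
    rw [hDd] at h1
    exact h1
  -- the theorem of Parry
  have hpar := hP G A A₁ ((P.Lam Gm).subgroupOf G) hAA grp2_comm hdec hdense
  -- the open set
  let Os : Set G := {T | ∀ i, P.sym0 ((T : (Mat P.m)ˣ) : Mat P.m) i ∈ V}
  have hOs : IsOpen Os := by
    have h1 : Os = ⋂ i, {T : G | P.sym0 ((T : (Mat P.m)ˣ) : Mat P.m) i ∈ V} := by
      ext T
      simp [Os]
    rw [h1]
    refine isOpen_iInter_of_finite fun i => ?_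
    exact hVo.preimage ((P.continuous_sym0 i).comp
      (Units.continuous_val.comp continuous_subtype_val))
  have h1Os : (1 : G) ∈ Os := by
    intro i
    have h1 := P.sym0_eq (OpPkg.Sy.one P) i
    show P.sym0 (1 : Mat P.m) i ∈ V
    rw [h1]
    exact h1V
  obtain ⟨n, hn, b, l, hl, hmemO⟩ := hF G ((P.Lam Gm).subgroupOf G) (Rg ^ k) Dg
    ((hRD.pow_left k).eq) (by
      intro h
      refine (hpar h).mono ?_
      rintro _ ⟨_, ⟨a, b, rfl⟩, l, hl, rfl⟩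
      exact ⟨a, b, l, hl, rfl⟩) (Rg ^ j) Os hOs ⟨1, h1Os⟩
  -- the symbol
  have hlΛ : (l : (Mat P.m)ˣ) ∈ P.Lam Gm := hl
  obtain ⟨n', q, hq, hSy⟩ := hlΛ
  have hTeq : ((Rg ^ k) ^ n * Dg ^ b * Rg ^ j * l : G) = Rg ^ (k * n + j) * Dg ^ b * l := by
    have h1 : Dg ^ b * Rg ^ j = Rg ^ j * Dg ^ b := ((hRD.pow_left j).zpow_right b).eq.symm
    rw [mul_assoc ((Rg ^ k) ^ n), h1, ← mul_assoc, ← pow_mul, ← pow_add]
  rw [hTeq] at hmemO
  have hSyR : P.Sy ((uexp (((k * n + j : ℕ) : ℝ) • τ₁) : (Mat P.m)ˣ) : Mat P.m)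
      (fun i x => IsNilpotent.exp ((((p i).map (Int.castRingHom ℝ)).eval (x + (k * n + j : ℕ)) -
        ((p i).map (Int.castRingHom ℝ)).eval x) • M)) ((k * n + j : ℕ) : ℝ) := by
    intro v i x
    rw [uexp_val (Submodule.smul_mem _ _ hτ₁S), hτ₁]
    exact P.exp_sk M hMS (k * n + j) v i x
  have hSyD : P.Sy ((uexp ((b : ℝ) • τ₂) : (Mat P.m)ˣ) : Mat P.m)
      (fun _ _ => IsNilpotent.exp ((b : ℝ) • M)) 0 := by
    intro v i x
    rw [uexp_val (Submodule.smul_mem _ _ hτ₂S), hτ₂, ← map_smul, add_zero]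
    exact P.exp_dl ((b : ℝ) • M) (Submodule.smul_mem _ _ hMS) v i x
  have hSyT := ((hSyR.mul P hSyD).mul P hSy)
  have hTval : (((Rg ^ (k * n + j) * Dg ^ b * l : G) : (Mat P.m)ˣ) : Mat P.m) =
      ((uexp (((k * n + j : ℕ) : ℝ) • τ₁) : (Mat P.m)ˣ) : Mat P.m) *
        ((uexp ((b : ℝ) • τ₂) : (Mat P.m)ˣ) : Mat P.m) * ((l : (Mat P.m)ˣ) : Mat P.m) := by
    rw [← Units.val_mul, ← Units.val_mul, ← uexp_pow hτ₁S, ← uexp_zpow hτ₂S]
    rfl
  have hfin : ∀ i, (((uexp M) ^ ((p i).eval ((k : ℤ) * (n : ℤ) + (j : ℤ)) + b) *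
      q i (((k * n + j : ℕ) : ℤ) : ℝ) : (Mat N)ˣ) : Mat N) ∈ V := by
    intro i
    have h1 := hmemO i
    rw [hTval, P.sym0_eq hSyT i] at h1
    have e1 : (((p i).map (Int.castRingHom ℝ)).eval ((0 : ℝ) + (k * n + j : ℕ)) -
        ((p i).map (Int.castRingHom ℝ)).eval 0) =
        (((p i).eval ((k : ℤ) * (n : ℤ) + (j : ℤ)) : ℤ) : ℝ) := by
      have h2 : ((p i).map (Int.castRingHom ℝ)).eval (0 : ℝ) = 0 := by
        have h3 := Polynomial.eval_intCast_map (Int.castRingHom ℝ) (p i) 0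
        rw [Int.cast_zero, Int.cast_id, hp i] at h3
        rw [h3]
        simp
      have h4 := Polynomial.eval_intCast_map (Int.castRingHom ℝ) (p i)
        ((k : ℤ) * (n : ℤ) + (j : ℤ))
      rw [h2, sub_zero, zero_add]
      push_cast at h4 ⊢
      rw [h4]
      simp
    have e2 : ((0 : ℝ) + (((k * n + j : ℕ) : ℝ) + 0)) = (((k * n + j : ℕ) : ℤ) : ℝ) := by
      push_cast
      ring
    have e3 : (((uexp M) ^ ((p i).eval ((k : ℤ) * (n : ℤ) + (j : ℤ)) + b) *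
        q i (((k * n + j : ℕ) : ℤ) : ℝ) : (Mat N)ˣ) : Mat N) =
        IsNilpotent.exp ((((p i).map (Int.castRingHom ℝ)).eval ((0 : ℝ) + (k * n + j : ℕ)) -
        ((p i).map (Int.castRingHom ℝ)).eval 0) • M) * IsNilpotent.exp ((b : ℝ) • M) *
        ((q i (0 + (((k * n + j : ℕ) : ℝ) + 0)) : (Mat N)ˣ) : Mat N) := by
      rw [e1, e2, zpow_add, uexp_zpow hMS, uexp_zpow hMS, Units.val_mul, Units.val_mul,
        uexp_val (Submodule.smul_mem _ _ hMS), uexp_val (Submodule.smul_mem _ _ hMS)]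
    rw [e3]
    exact h1
  refine ⟨n, hn, b, ⟨_, hq 0 ((k * n + j : ℕ) : ℤ), ?_⟩, fun i =>
    ⟨_, hq i.succ ((k * n + j : ℕ) : ℤ), hfin i.succ⟩⟩
  have h1 := hfin 0
  have h2 : (p 0).eval ((k : ℤ) * (n : ℤ) + (j : ℤ)) = 0 := by
    show (0 : Polynomial ℤ).eval _ = 0
    exact Polynomial.eval_zero
  rw [h2, zero_add] at h1
  exact h1

end Pool.Agent.Y329.NS
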