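import Pool.Agent.Y329.NS.P6
import Pool.Agent.Y329.NS.Trg
import Pool.Agent.Y329.NS.Fin
import Pool.Agent.Y329.NS.ModelM
import Pool.Agent.Y329.NS.JobC
import Pool.Agent.Y329.NS.JobK
import Pool.Agent.Y329.NS.JobD
import Pool.Agent.Y329.NS.JobOE
import Pool.Agent.Y329.NS.JobB
import Pool.Agent.Y179.NS.P127
import Pool.Agent.Y179.NS.P345
import Pool.Agent.Y179.NS.A1
import Pool.Agent.Y179.NS.A
import Pool.Agent.Y761.NS.O
import Pool.Agent.Y761.NS.V

/-!
# Project NS: collection of the parts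
-/

set_option autoImplicit false

namespace Pool.Agent.Y329.NS

/-- the topological form of Parry's theorem -/
theorem parry_all : S_P :=
  parry Y179.NS.done_P1 Y179.NS.done_P2 Y179.NS.done_P3 Y179.NS.done_P4 Y179.NS.done_P5
    Y179.NS.done_P7

/-- recurrence for the reduced data -/
theorem trg_all : S_TRG :=
  trg parry_all Y179.NS.done_F Y179.NS.done_A1 Y179.NS.done_A2 Y179.NS.done_N Y179.NS.done_L
    Y179.NS.done_G (doneB doneOE) doneDN1 Y761.NS.V.done Y761.NS.O.done doneK doneC
    (doneD doneK (doneDN2 doneOE) (doneDN3 doneOE))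

end Pool.Agent.Y329.NS
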