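import Pool.Agent.TH515.J1261

/-!
# Project NS: exponentials of strictly upper triangular real matrices, basic facts
-/

set_option autoImplicit false

namespace Pool.Agent.Y329.NS

open Finset Topology
open Pool.Agent.TH91.RF Pool.Agent.TH91.NB Pool.Agent.TH91.LG

/-- square real matrices -/
abbrev Mat (m : ℕ) := Matrix (Fin m) (Fin m) ℝ

/-- strictly upper triangular matrices -/
abbrev Su (m : ℕ) : Submodule ℝ (Mat m) := J887.FR m 1

/-- the exponential of a strictly upper triangular matrix as a unit (junk value 1 otherwise) -/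
noncomputable def uexp {m : ℕ} (x : Mat m) : (Mat m)ˣ :=
  open Classical in if h : x ∈ Su m then J1261.ue x h else 1

section basic

variable {m : ℕ}

theorem memF {x : Mat m} (h : x ∈ Su m) : x ∈ (J887.matFiltR m).F 1 := h

theorem uexp_eq {x : Mat m} (h : x ∈ Su m) : uexp x = J1261.ue x h := by
  unfold uexp
  rw [dif_pos h]

theorem uexp_val {x : Mat m} (h : x ∈ Su m) : ((uexp x : (Mat m)ˣ) : Mat m) = IsNilpotent.exp x := by
  rw [uexp_eq h]
  rfl

theorem uexp_inv (x : Mat m) : (uexp x)⁻¹ = uexp (-x) := by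
  by_cases h : x ∈ Su m
  · apply Units.ext
    rw [uexp_val (Submodule.neg_mem _ h), uexp_eq h]
    rfl
  · have h' : -x ∉ Su m := fun h1 => h (by simpa using Submodule.neg_mem _ h1)
    unfold uexp
    rw [dif_neg h, dif_neg h', inv_one]

theorem uexp_zero : (uexp 0 : (Mat m)ˣ) = 1 := by
  apply Units.ext
  rw [uexp_val (Submodule.zero_mem _), IsNilpotent.exp_zero, Units.val_one]

theorem uexp_inj {x y : Mat m} (hx : x ∈ Su m) (hy : y ∈ Su m) (h : uexp x = uexp y) : x = y := by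
  refine (J887.matFiltR m).exp_inj (memF hx) (memF hy) ?_
  rw [← uexp_val hx, ← uexp_val hy, h]

theorem uexp_add {x y : Mat m} (hx : x ∈ Su m) (hy : y ∈ Su m) (h : x * y = y * x) :
    uexp (x + y) = uexp x * uexp y := by
  apply Units.ext
  rw [Units.val_mul, uexp_val hx, uexp_val hy, uexp_val (Submodule.add_mem _ hx hy)]
  exact IsNilpotent.exp_add_of_commute h ((J887.matFiltR m).nilp (memF hx))
    ((J887.matFiltR m).nilp (memF hy))

theorem uexp_zpow {x : Mat m} (hx : x ∈ Su m) (k : ℤ) : (uexp x) ^ k = uexp ((k : ℝ) • x) := by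
  apply Units.ext
  rw [uexp_eq hx, uexp_val (Submodule.smul_mem _ _ hx)]
  exact J1261.ue_zpow x hx k

theorem uexp_pow {x : Mat m} (hx : x ∈ Su m) (k : ℕ) : (uexp x) ^ k = uexp ((k : ℝ) • x) := by
  have h := uexp_zpow hx (k : ℤ)
  rw [zpow_natCast] at h
  rw [h]
  simp

/-- the exponential is continuous along continuous families in `Su m` -/
theorem uexp_continuous {Y : Type*} [TopologicalSpace Y] {f : Y → Mat m} (hf : Continuous f)
    (h : ∀ y, f y ∈ Su m) : Continuous fun y => uexp (f y) := by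
  rw [Units.continuous_iff]
  constructor
  · have h1 : (fun y => ((uexp (f y) : (Mat m)ˣ) : Mat m)) = fun y => J887.Ex m (f y) := by
      funext y
      rw [uexp_val (h y), (J887.matFiltR m).exp_eq (memF (h y))]
      rfl
    change Continuous (fun y => ((uexp (f y) : (Mat m)ˣ) : Mat m))
    rw [h1]
    exact J887.Ex_continuous.comp hf
  · have h1 : (fun y => (((uexp (f y))⁻¹ : (Mat m)ˣ) : Mat m)) = fun y => J887.Ex m (-f y) := by
      funext y
      rw [uexp_inv, uexp_val (Submodule.neg_mem _ (h y)),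
        (J887.matFiltR m).exp_eq (memF (Submodule.neg_mem _ (h y)))]
      rfl
    rw [h1]
    exact J887.Ex_continuous.comp hf.neg

/-- the logarithm `J887.Lg m m` is a left inverse of the exponential -/
theorem lg_uexp {x : Mat m} (hx : x ∈ Su m) : J887.Lg m m ((uexp x : (Mat m)ˣ) : Mat m) = x := by
  rw [uexp_val hx]
  exact J887.Lg_exp (memF hx)

theorem uexp_sub_one {x : Mat m} (hx : x ∈ Su m) : ((uexp x : (Mat m)ˣ) : Mat m) - 1 ∈ Su m := by
  rw [uexp_val hx]
  exact (J887.matFiltR m).exp_sub_one_mem (memF hx)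

theorem mul_sub_one {u v : Mat m} (hu : u - 1 ∈ Su m) (hv : v - 1 ∈ Su m) : u * v - 1 ∈ Su m :=
  (J887.matFiltR m).one_add_mul_mem hu hv

/-- every unit `u` with `u - 1` strictly upper triangular is an exponential -/
theorem exists_log {u : (Mat m)ˣ} (hu : (u : Mat m) - 1 ∈ Su m) : ∃ x ∈ Su m, u = uexp x := by
  obtain ⟨z, hz, h⟩ := (J887.matFiltR m).exp_surj (w := (u : Mat m)) hu
  refine ⟨z, hz, Units.ext ?_⟩
  rw [uexp_val hz, h]

theorem br_mem_Su {x y : Mat m} (hx : x ∈ Su m) (hy : y ∈ Su m) : x * y - y * x ∈ Su m :=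
  Submodule.sub_mem _ ((J887.matFiltR m).anti (by omega) ((J887.matFiltR m).mul (memF hx) (memF hy)))
    ((J887.matFiltR m).anti (by omega) ((J887.matFiltR m).mul (memF hy) (memF hx)))

end basic

/-- a real Lie algebra of strictly upper triangular matrices -/
structure LieSub {m : ℕ} (L : Submodule ℝ (Mat m)) : Prop where
  le : L ≤ Su m
  br : ∀ x ∈ L, ∀ y ∈ L, x * y - y * x ∈ L

/-- an ideal -/
structure Idl {m : ℕ} (L J : Submodule ℝ (Mat m)) : Prop where
  le : J ≤ L
  br : ∀ x ∈ L, ∀ y ∈ J, x * y - y * x ∈ J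

/-- the span of the brackets -/
def brk {m : ℕ} (L J : Submodule ℝ (Mat m)) : Submodule ℝ (Mat m) :=
  Submodule.span ℝ {z | ∃ x ∈ L, ∃ y ∈ J, z = x * y - y * x}

section lie

variable {m : ℕ} {L J : Submodule ℝ (Mat m)}

theorem brk_mem {x y : Mat m} (hx : x ∈ L) (hy : y ∈ J) : x * y - y * x ∈ brk L J :=
  Submodule.subset_span ⟨x, hx, y, hy, rfl⟩

theorem qsmul_mem (J : Submodule ℝ (Mat m)) {x : Mat m} (q : ℚ) (hx : x ∈ J) : q • x ∈ J := by
  rw [← Rat.cast_smul_eq_qsmul ℝ]
  exact J.smul_mem _ hx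

theorem LieSub.lat (hL : LieSub L) : LieLat (J887.matFiltR m) L.toAddSubgroup :=
  ⟨fun _ hx => hL.le hx, fun u hu v hv => qsmul_mem L _ (hL.br u hu v hv)⟩

theorem Idl.idl (h : Idl L J) : LieIdl m L.toAddSubgroup J.toAddSubgroup :=
  ⟨fun _ hx => h.le hx, fun u hu v hv => qsmul_mem J _ (h.br u hu v hv)⟩

theorem LieSub.self (hL : LieSub L) : Idl L L := ⟨le_rfl, hL.br⟩

/-- `L` is contained in `L`; the brackets of an ideal are in the ideal -/
theorem Idl.brk_le (h : Idl L J) : brk L J ≤ J := by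
  unfold brk
  rw [Submodule.span_le]
  rintro _ ⟨x, hx, y, hy, rfl⟩
  exact h.br x hx y hy

/-- `[L, J]` is an ideal -/
theorem Idl.brk (h : Idl L J) : Idl L (brk L J) := by
  refine ⟨h.brk_le.trans h.le, fun x hx y hy => ?_⟩
  exact brk_mem hx (h.brk_le hy)

/-- **BCH modulo an ideal** -/
theorem uexp_mul (hL : LieSub L) (hJ : Idl L J) {x y : Mat m} (hx : x ∈ L) (hy : y ∈ L)
    (h : x * y - y * x ∈ J) : ∃ j ∈ J, uexp x * uexp y = uexp (x + y + j) := by
  obtain ⟨j, hj, h1⟩ := hL.lat.exp_mul_add hJ.idl hx hy (qsmul_mem J _ h)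
  refine ⟨j, hj, Units.ext ?_⟩
  rw [Units.val_mul, uexp_val (hL.le hx), uexp_val (hL.le hy), h1, uexp_val]
  exact Submodule.add_mem _ (Submodule.add_mem _ (hL.le hx) (hL.le hy)) (hL.le (hJ.le hj))

/-- products of exponentials -/
theorem uexp_mul' (hL : LieSub L) {x y : Mat m} (hx : x ∈ L) (hy : y ∈ L) :
    ∃ z ∈ L, uexp x * uexp y = uexp z := by
  obtain ⟨j, hj, h⟩ := uexp_mul hL hL.self hx hy (hL.br x hx y hy)
  exact ⟨_, L.add_mem (L.add_mem hx hy) hj, h⟩

/-- cosets: `exp x' = exp x * exp j` when `x' - x ∈ J` -/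
theorem uexp_coset (hL : LieSub L) (hJ : Idl L J) {x x' : Mat m} (hx : x ∈ L) (hx' : x' ∈ L)
    (h : x' - x ∈ J) : ∃ j ∈ J, uexp x' = uexp x * uexp j := by
  obtain ⟨j, hj, h1⟩ := hL.lat.exp_coset hJ.idl hx hx' h
  refine ⟨j, hj, Units.ext ?_⟩
  rw [Units.val_mul, uexp_val (hL.le hx), uexp_val (hL.le hx'), h1, uexp_val (hL.le (hJ.le hj))]

/-- `exp x * exp j = exp (x + j')` -/
theorem uexp_mul_idl (hL : LieSub L) (hJ : Idl L J) {x j : Mat m} (hx : x ∈ L) (hj : j ∈ J) :
    ∃ j' ∈ J, uexp x * uexp j = uexp (x + j') := by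
  obtain ⟨j', hj', h⟩ := hL.lat.exp_mul_idl hJ.idl hx hj
  refine ⟨j', hj', Units.ext ?_⟩
  rw [Units.val_mul, uexp_val (hL.le hx), uexp_val (hL.le (hJ.le hj)), h, uexp_val]
  exact Submodule.add_mem _ (hL.le hx) (hL.le (hJ.le hj'))

/-- conjugation: `exp w exp x exp (-w) = exp (x + [w, x] + j)` with `j` in `K ⊇ [L, [w, x]]` -/
theorem uexp_conj (hL : LieSub L) {K : Submodule ℝ (Mat m)} (hK : Idl L K) {w x : Mat m}
    (hw : w ∈ L) (hx : x ∈ L) (h : w * (w * x - x * w) - (w * x - x * w) * w ∈ K) :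
    ∃ j ∈ K, uexp w * uexp x * uexp (-w) = uexp (x + (w * x - x * w) + j) := by
  have hwn := (J887.matFiltR m).nilp (hL.le hw)
  -- the iterated brackets
  have e1 : adr (-w) x = w * x - x * w := by unfold adr; noncomm_ring
  have hit : ∀ k, (adr (-w))^[k + 2] x ∈ K := by
    intro k
    induction k with
    | zero =>
      rw [Function.iterate_succ_apply', Function.iterate_one, e1]
      have e2 : adr (-w) (w * x - x * w) = w * (w * x - x * w) - (w * x - x * w) * w := by
        unfold adr; noncomm_ring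
      rw [e2]
      exact h
    | succ k ih =>
      rw [show k + 1 + 2 = (k + 2) + 1 by ring, Function.iterate_succ_apply']
      have e3 : ∀ y : Mat m, adr (-w) y = w * y - y * w := by
        intro y; unfold adr; noncomm_ring
      rw [e3]
      exact hK.br w hw _ ih
  have hconj := hL.lat.exp_conj_eq hw hx
  have hbr : w * x - x * w ∈ L := hL.br w hw x hx
  rcases Nat.eq_zero_or_pos m with hm | hm
  · subst hm
    refine ⟨0, K.zero_mem, ?_⟩
    apply Units.ext
    ext i
    exact i.elim0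
  obtain ⟨n, hn⟩ : ∃ n, m + 1 = n + 1 + 1 := ⟨m - 1, by omega⟩
  refine ⟨∑ k ∈ range n, (((k + 2).factorial : ℚ))⁻¹ • (adr (-w))^[k + 2] x,
    K.sum_mem fun k _ => qsmul_mem K _ (hit k), ?_⟩
  apply Units.ext
  have hj : ∑ k ∈ range n, (((k + 2).factorial : ℚ))⁻¹ • (adr (-w))^[k + 2] x ∈ K :=
    K.sum_mem fun k _ => qsmul_mem K _ (hit k)
  have hmem : x + (w * x - x * w) +
      ∑ k ∈ range n, (((k + 2).factorial : ℚ))⁻¹ • (adr (-w))^[k + 2] x ∈ Su m :=
    hL.le (L.add_mem (L.add_mem hx hbr) (hK.le hj))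
  rw [Units.val_mul, Units.val_mul, uexp_val (hL.le hw), uexp_val (hL.le hx),
    uexp_val (hL.le (L.neg_mem hw)), hconj, uexp_val hmem]
  congr 1
  rw [hn, sum_range_succ', sum_range_succ']
  simp only [Function.iterate_zero, id_eq, zero_add, Function.iterate_one, Nat.factorial_zero,
    Nat.factorial_one, Nat.cast_one, inv_one, one_smul, e1]
  abel

/-- commutators: `exp w exp x exp (-w) exp (-x) = exp ([w, x] + j)` with `j` in an ideal `K`
containing `[L, [w, x]]` -/
theorem uexp_commutator (hL : LieSub L) {K : Submodule ℝ (Mat m)} (hK : Idl L K) {w x : Mat m}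
    (hw : w ∈ L) (hx : x ∈ L)
    (h : ∀ z ∈ L, z * (w * x - x * w) - (w * x - x * w) * z ∈ K) :
    ∃ j ∈ K, uexp w * uexp x * uexp (-w) * uexp (-x) = uexp ((w * x - x * w) + j) := by
  obtain ⟨j, hj, h1⟩ := uexp_conj hL hK hw hx (h w hw)
  have hbr : w * x - x * w ∈ L := hL.br w hw x hx
  have h2 : x + (w * x - x * w) + j ∈ L := L.add_mem (L.add_mem hx hbr) (hK.le hj)
  obtain ⟨j', hj', h3⟩ := uexp_mul hL hK h2 (L.neg_mem hx) (by
    have e : (x + (w * x - x * w) + j) * -x - -x * (x + (w * x - x * w) + j) =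
        (x * (w * x - x * w) - (w * x - x * w) * x) + (x * j - j * x) := by noncomm_ring
    rw [e]
    exact K.add_mem (h x hx) (hK.br x hx j hj))
  refine ⟨j + j', K.add_mem hj hj', ?_⟩
  rw [h1, h3]
  congr 1
  abel

end lie

end Pool.Agent.Y329.NS
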