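import Pool.Agent.Y329.NS.Stm

/-!
# Project NS: the topological form of Parry's theorem
-/

set_option autoImplicit false

namespace Pool.Agent.Y329.NS

open Topology Filter
open scoped commutatorElement

section core

/-- `u` acts by a constant on `φ` -/
def Cst {G : Type} [Group G] (φ : G → Circle) (u : G) : Prop :=
  ∃ θ : Circle, ∀ x, φ (u * x) = θ * φ x

theorem Cst.mul {G : Type} [Group G] {φ : G → Circle} {u v : G} (hu : Cst φ u) (hv : Cst φ v) :
    Cst φ (u * v) := by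
  obtain ⟨a, ha⟩ := hu
  obtain ⟨b, hb⟩ := hv
  refine ⟨a * b, fun x => ?_⟩
  rw [mul_assoc, ha, hb, mul_assoc]

theorem dist_circle_mul (a b c : Circle) : dist (a * c) (b * c) = dist a b := by
  show dist ((a * c : Circle) : ℂ) ((b * c : Circle) : ℂ) = dist (a : ℂ) (b : ℂ)
  rw [Circle.coe_mul, Circle.coe_mul, dist_eq_norm, ← sub_mul, norm_mul, Circle.norm_coe, mul_one,
    dist_eq_norm]

variable {G : Type} [Group G] [TopologicalSpace G] [IsTopologicalGroup G]

/-- if `φ (u a x) = φ (u x)` for `a` in `A` then `u` acts by a constant -/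
theorem cst_of_inv {φ : G → Circle} (hφ : Continuous φ) {A D : Subgroup G}
    (χ : D → Circle) (hq : ∀ x, ∀ q : D, φ (x * q) = φ x * χ q)
    (hA : ∀ a ∈ A, ∀ x, φ (a * x) = φ x)
    (hd : Dense {x : G | ∃ a ∈ A, ∃ l ∈ D, x = a * 1 * l})
    {u : G} (hu : ∀ a ∈ A, ∀ x, φ (u * (a * x)) = φ (u * x)) : Cst φ u := by
  refine ⟨φ u * (φ 1)⁻¹, fun x => ?_⟩
  have hcl : IsClosed {y : G | φ (u * y) = φ u * (φ 1)⁻¹ * φ y} :=
    isClosed_eq (hφ.comp (continuous_const_mul u)) (continuous_const.mul hφ)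
  have hsub : {x : G | ∃ a ∈ A, ∃ l ∈ D, x = a * 1 * l} ⊆
      {y : G | φ (u * y) = φ u * (φ 1)⁻¹ * φ y} := by
    rintro _ ⟨a, ha, l, hl, rfl⟩
    have h1 : φ (u * (a * 1 * l)) = φ u * χ ⟨l, hl⟩ := by
      have h2 := hq (u * (a * 1)) ⟨l, hl⟩
      rw [hu a ha 1, mul_one u] at h2
      rw [← h2, mul_assoc u]
    have h3 : φ (a * 1 * l) = φ 1 * χ ⟨l, hl⟩ := by
      have h2 := hq (a * 1) ⟨l, hl⟩
      rw [hA a ha] at h2
      exact h2
    show φ (u * (a * 1 * l)) = φ u * (φ 1)⁻¹ * φ (a * 1 * l)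
    rw [h1, h3]
    group
  have h := hcl.closure_subset_iff.2 hsub
  rw [hd.closure_eq] at h
  exact h (Set.mem_univ x)

/-- the inner step: a connected set of elements whose commutators with `A` act by constants -/
theorem cst_conn (h4 : S_P4) {φ : G → Circle} (hφ : Continuous φ) {A D : Subgroup G}
    (χ : D → Circle) (hq : ∀ x, ∀ q : D, φ (x * q) = φ x * χ q)
    (hA : ∀ a ∈ A, ∀ x, φ (a * x) = φ x)
    (hd : Dense {x : G | ∃ a ∈ A, ∃ l ∈ D, x = a * 1 * l})
    {V : Set G} (hV : V ∈ 𝓝 (1 : G)) (hV' : ∀ v ∈ V, ∀ x, dist (φ (v * x)) (φ x) < 1 / 2)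
    {T : Set G} (hT : IsPreconnected T) (h1 : (1 : G) ∈ T)
    (hc : ∀ u ∈ T, ∀ a ∈ A, Cst φ (a⁻¹ * u * a * u⁻¹)) : ∀ u ∈ T, Cst φ u := by
  -- the eigenfunction relation
  have heig : ∀ u ∈ T, ∀ a ∈ A, ∃ θ : Circle, ∀ x, φ (u * (a * x)) = θ * φ (u * x) := by
    intro u hu a ha
    obtain ⟨θ, hθ⟩ := hc u hu a ha
    refine ⟨θ, fun x => ?_⟩
    have e1 : u * (a * x) = a * ((a⁻¹ * u * a * u⁻¹) * (u * x)) := by group
    rw [e1, hA a ha, hθ]
  have hnear : ∀ u ∈ T, ∀ u' ∈ T, (∀ x, dist (φ (u' * x)) (φ (u * x)) < 1 / 2) →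
      (∀ a ∈ A, ∀ x, φ (u * (a * x)) = φ (u * x)) →
      (∀ a ∈ A, ∀ x, φ (u' * (a * x)) = φ (u' * x)) := by
    intro u hu u' hu' hn hP a ha x
    obtain ⟨θ, hθ⟩ := heig u' hu' a ha
    have hpow : ∀ n : ℕ, φ (u' * (a ^ n * x)) = θ ^ n * φ (u' * x) := by
      intro n
      induction n with
      | zero => simp
      | succ n ih => rw [pow_succ', mul_assoc, hθ, ih, pow_succ', mul_assoc]
    have hθ1 : θ = 1 := by
      apply h4
      intro n
      have e1 : dist (θ ^ n) 1 = dist (φ (u' * (a ^ n * x))) (φ (u' * x)) := by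
        rw [hpow n]
        have h5 : dist (θ ^ n * φ (u' * x)) (1 * φ (u' * x)) = dist (θ ^ n) 1 :=
          dist_circle_mul _ _ _
        rw [one_mul] at h5
        exact h5.symm
      rw [e1]
      have h5 : dist (φ (u' * (a ^ n * x))) (φ (u * (a ^ n * x))) < 1 / 2 := hn _
      have h6 : φ (u * (a ^ n * x)) = φ (u * x) := hP (a ^ n) (A.pow_mem ha n) x
      have h7 : dist (φ (u' * x)) (φ (u * x)) < 1 / 2 := hn _
      rw [h6] at h5
      calc dist (φ (u' * (a ^ n * x))) (φ (u' * x))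
          ≤ dist (φ (u' * (a ^ n * x))) (φ (u * x)) + dist (φ (u * x)) (φ (u' * x)) :=
            dist_triangle _ _ _
        _ < 1 / 2 + 1 / 2 := by
            rw [dist_comm (φ (u * x))]
            exact add_lt_add h5 h7
        _ = 1 := by norm_num
    rw [hθ, hθ1, one_mul]
  have hloc : ∀ u ∈ T, ∀ u' ∈ T, u' * u⁻¹ ∈ V → (∀ x, dist (φ (u' * x)) (φ (u * x)) < 1 / 2) := by
    intro u hu u' hu' hv x
    have := hV' _ hv (u * x)
    have e : u' * u⁻¹ * (u * x) = u' * x := by group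
    rwa [e] at this
  have hsp : PreconnectedSpace T := isPreconnected_iff_preconnectedSpace.1 hT
  have hnb : ∀ t : T, {t' : T | (t' : G) * (t : G)⁻¹ ∈ V} ∈ 𝓝 t := by
    intro t
    have hcont : Continuous fun t' : T => (t' : G) * (t : G)⁻¹ :=
      continuous_subtype_val.mul continuous_const
    have h5 := hcont.continuousAt (x := t)
    apply h5
    show V ∈ 𝓝 ((t : G) * (t : G)⁻¹)
    rw [mul_inv_cancel]
    exact hV
  have hclopen : IsClopen {t : T | ∀ a ∈ A, ∀ x, φ ((t : G) * (a * x)) = φ ((t : G) * x)} := by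
    constructor
    · rw [← isOpen_compl_iff, isOpen_iff_mem_nhds]
      intro t ht
      filter_upwards [hnb t] with t' ht'
      intro hP
      apply ht
      exact hnear t' t'.2 t t.2 (fun x => by
        rw [dist_comm]
        exact hloc t t.2 t' t'.2 ht' x) hP
    · rw [isOpen_iff_mem_nhds]
      intro t ht
      filter_upwards [hnb t] with t' ht'
      exact hnear t t.2 t' t'.2 (hloc t t.2 t' t'.2 ht') ht
  have hne : {t : T | ∀ a ∈ A, ∀ x, φ ((t : G) * (a * x)) = φ ((t : G) * x)}.Nonempty := by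
    refine ⟨⟨1, h1⟩, fun a ha x => ?_⟩
    simp only [one_mul]
    exact hA a ha x
  have huniv := hclopen.eq_univ hne
  intro u hu
  refine cst_of_inv hφ χ hq hA hd ?_
  have : (⟨u, hu⟩ : T) ∈ {t : T | ∀ a ∈ A, ∀ x, φ ((t : G) * (a * x)) = φ ((t : G) * x)} := by
    rw [huniv]
    trivial
  exact this

/-- the main step -/
theorem core (h1 : S_P1) (h2 : S_P2) (h3 : S_P3) (h4 : S_P4) (h5 : S_P5) (h7 : S_P7)
    (c : ℕ) (hc : lcs G (c + 2) = ⊥) (A A₁ Λ : Subgroup G) [CompactSpace (G ⧸ Λ)]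
    (hΛ : IsClosed (Λ : Set G)) (hA : A ≤ A₁) (hcomm : ∀ a ∈ A₁, ∀ b ∈ A₁, a * b = b * a)
    (hdec : ∀ x : G, ∃ u ∈ connectedComponent (1 : G), ∃ a ∈ A₁, x = u * a)
    (hIH : ∀ h : G, Dense {x : G | ∃ a ∈ A, ∃ l ∈ Λ ⊔ lcs G (c + 1), x = a * h * l}) (h : G) :
    Dense {x : G | ∃ a ∈ A, ∃ l ∈ Λ, x = a * h * l} := by
  classical
  set C : Subgroup G := lcs G (c + 1) with hC
  have hCn : C.Normal := by
    rw [hC]
    infer_instance
  -- `C` is central
  have hcent : ∀ z ∈ C, ∀ x : G, z * x = x * z := by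
    intro z hz x
    have h6 : ⁅z, x⁆ ∈ lcs G (c + 2) :=
      Subgroup.commutator_mem_commutator hz (Subgroup.mem_top x)
    rw [hc, Subgroup.mem_bot, commutatorElement_eq_one_iff_mul_comm] at h6
    exact h6
  set D : Subgroup G := (Λ ⊔ C).topologicalClosure with hD
  have hDcl : IsClosed (D : Set G) := Subgroup.isClosed_topologicalClosure _
  have hleD : Λ ⊔ C ≤ D := Subgroup.le_topologicalClosure _
  have hΛD : Λ ≤ D := le_sup_left.trans hleD
  have hCD : C ≤ D := le_sup_right.trans hleD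
  -- commutators
  have hcomm1 : ∀ x ∈ Λ ⊔ C, ∀ y ∈ Λ ⊔ C, x * y * x⁻¹ * y⁻¹ ∈ Λ := by
    intro x hx y hy
    obtain ⟨l, hl, z, hz, rfl⟩ := Subgroup.mem_sup_of_normal_right.1 hx
    obtain ⟨l', hl', z', hz', rfl⟩ := Subgroup.mem_sup_of_normal_right.1 hy
    have e : l * z * (l' * z') * (l * z)⁻¹ * (l' * z')⁻¹ = l * l' * l⁻¹ * l'⁻¹ := by
      calc l * z * (l' * z') * (l * z)⁻¹ * (l' * z')⁻¹
          = l * (z * l') * z' * z⁻¹ * l⁻¹ * z'⁻¹ * l'⁻¹ := by group
        _ = l * (l' * z) * z' * z⁻¹ * l⁻¹ * z'⁻¹ * l'⁻¹ := by rw [hcent z hz l']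
        _ = l * l' * (z * z') * z⁻¹ * l⁻¹ * z'⁻¹ * l'⁻¹ := by group
        _ = l * l' * (z' * z) * z⁻¹ * l⁻¹ * z'⁻¹ * l'⁻¹ := by rw [hcent z hz z']
        _ = l * l' * (z' * l⁻¹) * z'⁻¹ * l'⁻¹ := by group
        _ = l * l' * (l⁻¹ * z') * z'⁻¹ * l'⁻¹ := by rw [hcent z' hz' l⁻¹]
        _ = l * l' * l⁻¹ * l'⁻¹ := by group
    rw [e]
    exact Λ.mul_mem (Λ.mul_mem (Λ.mul_mem hl hl') (Λ.inv_mem hl)) (Λ.inv_mem hl')
  have hcomm2 : ∀ x ∈ D, ∀ y ∈ Λ ⊔ C, x * y * x⁻¹ * y⁻¹ ∈ Λ := by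
    intro x hx y hy
    have hcl : IsClosed {x : G | x * y * x⁻¹ * y⁻¹ ∈ (Λ : Set G)} :=
      hΛ.preimage (by fun_prop)
    have hsub : ((Λ ⊔ C : Subgroup G) : Set G) ⊆ {x : G | x * y * x⁻¹ * y⁻¹ ∈ (Λ : Set G)} :=
      fun x hx => hcomm1 x hx y hy
    exact hcl.closure_subset_iff.2 hsub hx
  have hcomm3 : ∀ x ∈ D, ∀ y ∈ D, x * y * x⁻¹ * y⁻¹ ∈ Λ := by
    intro x hx y hy
    have hcl : IsClosed {y : G | x * y * x⁻¹ * y⁻¹ ∈ (Λ : Set G)} :=
      hΛ.preimage (by fun_prop)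
    have hsub : ((Λ ⊔ C : Subgroup G) : Set G) ⊆ {y : G | x * y * x⁻¹ * y⁻¹ ∈ (Λ : Set G)} :=
      fun y hy => hcomm2 x hx y hy
    exact hcl.closure_subset_iff.2 hsub hy
  have hconj : ∀ q ∈ D, ∀ l ∈ Λ, q⁻¹ * l * q ∈ Λ := by
    intro q hq l hl
    have h6 := hcomm3 q⁻¹ (D.inv_mem hq) l (hΛD hl)
    have h8 := Λ.mul_mem h6 hl
    have e : q⁻¹ * l * q⁻¹⁻¹ * l⁻¹ * l = q⁻¹ * l * q := by group
    rwa [e] at h8
  -- the minimal set
  set K₀ : Set G := closure {x : G | ∃ a ∈ A, ∃ l ∈ Λ, x = a * h * l} with hK₀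
  have hK₀inv : Inv A Λ K₀ := by
    constructor
    · intro x hx a ha
      refine map_mem_closure (continuous_const_mul a) hx ?_
      rintro _ ⟨b, hb, l, hl, rfl⟩
      exact ⟨a * b, A.mul_mem ha hb, l, hl, by group⟩
    · intro x hx l hl
      refine map_mem_closure (f := fun y => y * l) (continuous_mul_const l) hx ?_
      rintro _ ⟨b, hb, l', hl', rfl⟩
      exact ⟨b, hb, l' * l, Λ.mul_mem hl' hl, by group⟩
  obtain ⟨K, hKK₀, hKcl, ⟨x₀, hx₀⟩, hKinv, hKmin⟩ := h7 G A Λ K₀ isClosed_closure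
    ⟨h, subset_closure ⟨1, A.one_mem, 1, Λ.one_mem, by group⟩⟩ hK₀inv
  -- `K D = G`
  have hKD : ∀ z : G, ∃ x ∈ K, ∃ y ∈ (D : Set G), z = x * y := by
    have hcl := h1 G Λ K (D : Set G) hKcl hDcl hKinv.2 (fun x hx l hl => D.mul_mem (hΛD hl) hx)
    have hsub : {x : G | ∃ a ∈ A, ∃ l ∈ Λ ⊔ C, x = a * x₀ * l} ⊆
        {z : G | ∃ x ∈ K, ∃ y ∈ (D : Set G), z = x * y} := by
      rintro _ ⟨a, ha, l, hl, rfl⟩
      exact ⟨a * x₀, hKinv.1 x₀ hx₀ a ha, l, hleD hl, rfl⟩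
    have h6 := hcl.closure_subset_iff.2 hsub
    rw [(hIH x₀).closure_eq] at h6
    intro z
    exact h6 (Set.mem_univ z)
  -- translates of `K`
  have htr : ∀ q ∈ D, ∀ x ∈ K, x * q ∈ K → ∀ y ∈ K, y * q ∈ K := by
    intro q hq x hx hxq y hy
    have h6 : K ∩ {y | y * q ∈ K} = K := by
      refine hKmin _ Set.inter_subset_left (hKcl.inter (hKcl.preimage (continuous_mul_const q)))
        ⟨x, hx, hxq⟩ ⟨?_, ?_⟩
      · rintro y ⟨hy, hyq⟩ a ha
        refine ⟨hKinv.1 y hy a ha, ?_⟩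
        show a * y * q ∈ K
        rw [mul_assoc]
        exact hKinv.1 _ hyq a ha
      · rintro y ⟨hy, hyq⟩ l hl
        refine ⟨hKinv.2 y hy l hl, ?_⟩
        show y * l * q ∈ K
        have e : y * l * q = y * q * (q⁻¹ * l * q) := by group
        rw [e]
        exact hKinv.2 _ hyq _ (hconj q hq l hl)
    have h8 : y ∈ K ∩ {y | y * q ∈ K} := by
      rw [h6]
      exact hy
    exact h8.2
  have htr' : ∀ q ∈ D, ∀ x ∈ K, x * q ∈ K → ∀ y ∈ K, y * q⁻¹ ∈ K := by
    intro q hq x hx hxq y hy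
    refine htr q⁻¹ (D.inv_mem hq) (x * q) hxq ?_ y hy
    rw [mul_inv_cancel_right]
    exact hx
  -- the stabiliser
  let S : Subgroup G :=
    { carrier := {q | q ∈ D ∧ ∀ y ∈ K, y * q ∈ K ∧ y * q⁻¹ ∈ K}
      one_mem' := ⟨D.one_mem, fun y hy => by simpa using hy⟩
      mul_mem' := by
        rintro a b ⟨ha, ha'⟩ ⟨hb, hb'⟩
        refine ⟨D.mul_mem ha hb, fun y hy => ⟨?_, ?_⟩⟩
        · rw [← mul_assoc]
          exact (hb' _ (ha' y hy).1).1
        · rw [mul_inv_rev, ← mul_assoc]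
          exact (ha' _ (hb' y hy).2).2
      inv_mem' := by
        rintro a ⟨ha, ha'⟩
        refine ⟨D.inv_mem ha, fun y hy => ⟨(ha' y hy).2, ?_⟩⟩
        rw [inv_inv]
        exact (ha' y hy).1 }
  have hmemS : ∀ q, q ∈ S ↔ q ∈ D ∧ x₀ * q ∈ K := by
    intro q
    constructor
    · rintro ⟨hq, hq'⟩
      exact ⟨hq, (hq' x₀ hx₀).1⟩
    · rintro ⟨hq, hq'⟩
      exact ⟨hq, fun y hy => ⟨htr q hq x₀ hx₀ hq' y hy, htr' q hq x₀ hx₀ hq' y hy⟩⟩
  have hScl : IsClosed (S : Set G) := by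
    have e : (S : Set G) = (D : Set G) ∩ {q | x₀ * q ∈ K} := by
      ext q
      exact hmemS q
    rw [e]
    exact hDcl.inter (hKcl.preimage (continuous_const_mul x₀))
  have hΛS : Λ ≤ S := fun l hl => (hmemS l).2 ⟨hΛD hl, hKinv.2 x₀ hx₀ l hl⟩
  have hSD : S ≤ D := fun q hq => hq.1
  by_cases hall : ∃ q ∈ D, q ∉ S
  swap
  · push Not at hall
    rw [dense_iff_closure_eq, Set.eq_univ_iff_forall]
    intro z
    apply hKK₀
    obtain ⟨x, hx, y, hy, rfl⟩ := hKD z
    exact ((hall y hy).2 x hx).1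
  exfalso
  obtain ⟨χ, hχc, hχS, q₁, hq₁⟩ := h5 G Λ S D hΛS hSD hScl hDcl
    (fun x hx y hy => hΛS (hcomm3 x hx y hy)) hall
  -- the function `φ`
  have hKD' : ∀ z : G, ∃ x ∈ K, ∃ y : D, z = x * y := by
    intro z
    obtain ⟨x, hx, y, hy, h⟩ := hKD z
    exact ⟨x, hx, ⟨y, hy⟩, h⟩
  choose kk hkk qq hqq using hKD'
  let φ : G → Circle := fun z => χ (qq z)
  have hφ : ∀ x ∈ K, ∀ q : D, φ (x * q) = χ q := by
    intro x hx q
    have h6 := hqq (x * q)
    have h8 : (q : G) * ((qq (x * q) : D) : G)⁻¹ ∈ S := by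
      rw [hmemS]
      refine ⟨D.mul_mem q.2 (D.inv_mem (qq (x * q)).2), ?_⟩
      refine htr _ (D.mul_mem q.2 (D.inv_mem (qq (x * q)).2)) x hx ?_ x₀ hx₀
      have e : x * ((q : G) * ((qq (x * q) : D) : G)⁻¹) = kk (x * q) := by
        rw [← mul_assoc, mul_inv_eq_iff_eq_mul]
        exact h6
      rw [e]
      exact hkk _
    have h9 := hχS (q * (qq (x * q))⁻¹) h8
    rw [map_mul, map_inv, mul_inv_eq_one] at h9
    exact h9.symm
  have hφc : Continuous φ := by
    rw [continuous_iff_isClosed]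
    intro F hF
    have hcl := h1 G Λ K {y : G | ∃ hy : y ∈ D, χ ⟨y, hy⟩ ∈ F} hKcl (by
      have h6 : IsClosed (χ ⁻¹' F) := hF.preimage hχc
      have h8 := (hDcl.isClosedEmbedding_subtypeVal).isClosedMap _ h6
      convert h8 using 1
      ext y
      constructor
      · rintro ⟨hy, hyF⟩
        exact ⟨⟨y, hy⟩, hyF, rfl⟩
      · rintro ⟨⟨y', hy'⟩, hyF, rfl⟩
        exact ⟨hy', hyF⟩) hKinv.2 (by
      rintro y ⟨hy, hyF⟩ l hl
      refine ⟨D.mul_mem (hΛD hl) hy, ?_⟩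
      have h6 : (⟨l * y, D.mul_mem (hΛD hl) hy⟩ : D) = ⟨l, hΛD hl⟩ * ⟨y, hy⟩ := rfl
      rw [h6, map_mul, hχS ⟨l, hΛD hl⟩ (hΛS hl), one_mul]
      exact hyF)
    convert hcl using 1
    ext z
    constructor
    · intro hz
      refine ⟨kk z, hkk z, (qq z : G), ⟨(qq z).2, hz⟩, hqq z⟩
    · rintro ⟨x, hx, y, ⟨hy, hyF⟩, rfl⟩
      show φ (x * y) ∈ F
      have h6 := hφ x hx ⟨y, hy⟩
      rw [h6]
      exact hyF
  have hφA : ∀ a ∈ A, ∀ x, φ (a * x) = φ x := by
    intro a ha x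
    obtain ⟨y, hy, q, rfl⟩ : ∃ y ∈ K, ∃ q : D, x = y * q := ⟨kk x, hkk x, qq x, hqq x⟩
    rw [← mul_assoc, hφ _ (hKinv.1 y hy a ha), hφ y hy]
  have hφq : ∀ x, ∀ q : D, φ (x * q) = φ x * χ q := by
    intro x q
    obtain ⟨y, hy, q', rfl⟩ : ∃ y ∈ K, ∃ q : D, x = y * q := ⟨kk x, hkk x, qq x, hqq x⟩
    have e : y * (q' : G) * (q : G) = y * ((q' * q : D) : G) := by
      rw [Subgroup.coe_mul, mul_assoc]
    rw [e, hφ y hy, hφ y hy, map_mul]
  obtain ⟨V, hV, hV'⟩ := h2 G Λ φ hφc (fun x l hl => by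
    rw [hφq x ⟨l, hΛD hl⟩, hχS ⟨l, hΛD hl⟩ (hΛS hl), mul_one]) (1 / 2) (by norm_num)
  have hd1 : Dense {x : G | ∃ a ∈ A, ∃ l ∈ D, x = a * 1 * l} := by
    refine (hIH 1).mono ?_
    rintro _ ⟨a, ha, l, hl, rfl⟩
    exact ⟨a, ha, l, hleD hl, rfl⟩
  -- the terms of the lower central series
  have hlcs : ∀ j n : ℕ, 1 ≤ n → n + j = c + 2 → ∀ u ∈ lcs G n, Cst φ u := by
    intro j
    induction j with
    | zero =>
      intro n _ hn u hu
      rw [add_zero] at hn
      rw [hn, hc, Subgroup.mem_bot] at hu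
      exact ⟨1, fun x => by rw [hu, one_mul, one_mul]⟩
    | succ j ih =>
      intro n hn1 hn
      refine cst_conn h4 hφc (fun q => χ q) hφq hφA hd1 hV hV'
        (h3 G A₁ hcomm hdec n hn1) (lcs G n).one_mem ?_
      intro u hu a ha
      refine ih (n + 1) (by omega) (by omega) _ ?_
      have h6 : ⁅u, a⁻¹⁆ ∈ lcs G (n + 1) :=
        Subgroup.commutator_mem_commutator hu (Subgroup.mem_top _)
      have h8 := (lcs G (n + 1)).inv_mem h6
      rw [commutatorElement_inv, commutatorElement_def] at h8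
      have e : a⁻¹ * u * a * u⁻¹ = a⁻¹ * u * a⁻¹⁻¹ * u⁻¹ := by group
      rw [e]
      exact h8
  have hall1 : ∀ u ∈ lcs G 1, Cst φ u := hlcs (c + 1) 1 le_rfl (by omega)
  have hconn : ∀ u ∈ connectedComponent (1 : G), Cst φ u := by
    refine cst_conn h4 hφc (fun q => χ q) hφq hφA hd1 hV hV'
        isPreconnected_connectedComponent mem_connectedComponent ?_
    intro u hu a ha
    refine hall1 _ ?_
    have h6 : ⁅a⁻¹, u⁆ ∈ lcs G (0 + 1) :=
      Subgroup.commutator_mem_commutator (Subgroup.mem_top _) (Subgroup.mem_top _)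
    rw [commutatorElement_def] at h6
    have e : a⁻¹ * u * a * u⁻¹ = a⁻¹ * u * a⁻¹⁻¹ * u⁻¹ := by group
    rw [e]
    exact h6
  have hA₁ : ∀ u ∈ A₁, Cst φ u := by
    intro u hu
    refine cst_of_inv hφc (fun q => χ q) hφq hφA hd1 ?_
    intro a ha x
    have e : u * (a * x) = a * (u * x) := by
      rw [← mul_assoc, hcomm u hu a (hA ha), mul_assoc]
    rw [e, hφA a ha]
  have hcst : ∀ u : G, Cst φ u := by
    intro u
    obtain ⟨v, hv, a, ha, rfl⟩ := hdec u
    exact (hconn v hv).mul (hA₁ a ha)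
  choose θ hθ using hcst
  let Θ : G →* Circle :=
    { toFun := θ
      map_one' := by
        have h6 := hθ 1 1
        rw [one_mul] at h6
        exact right_eq_mul.1 h6
      map_mul' := by
        intro u v
        have h6 := hθ (u * v) 1
        rw [mul_assoc, hθ u, hθ v, ← mul_assoc] at h6
        exact (mul_right_cancel h6).symm }
  have hΘC : ∀ z ∈ C, θ z = 1 := by
    intro z hz
    have h6 : z ∈ commutator G := by
      rw [← Subgroup.top_lowerCentralSeries_one]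
      exact (⊤ : Subgroup G).lowerCentralSeries_antitone (by omega : 1 ≤ c + 1) hz
    have h8 := Abelianization.commutator_subset_ker Θ h6
    exact h8
  have hχC : ∀ z (hz : z ∈ C), χ ⟨z, hCD hz⟩ = 1 := by
    intro z hz
    have h6 := hθ z 1
    have h8 := hφq 1 ⟨z, hCD hz⟩
    rw [← hcent z hz 1] at h8
    rw [h6, hΘC z hz, one_mul] at h8
    exact (left_eq_mul.1 h8)
  -- contradiction
  apply hq₁
  have hcl : IsClosed {q : D | χ q = 1} := isClosed_eq hχc continuous_const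
  have hcl2 := (hDcl.isClosedEmbedding_subtypeVal).isClosedMap _ hcl
  have hsub : ((Λ ⊔ C : Subgroup G) : Set G) ⊆ Subtype.val '' {q : D | χ q = 1} := by
    intro x hx
    obtain ⟨l, hl, z, hz, rfl⟩ := Subgroup.mem_sup_of_normal_right.1 hx
    refine ⟨⟨l, hΛD hl⟩ * ⟨z, hCD hz⟩, ?_, rfl⟩
    show χ (⟨l, hΛD hl⟩ * ⟨z, hCD hz⟩) = 1
    rw [map_mul, hχS ⟨l, hΛD hl⟩ (hΛS hl), hχC z hz, one_mul]
  have h6 := hcl2.closure_subset_iff.2 hsub
  obtain ⟨q, hq, hqq'⟩ := h6 q₁.2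
  have h8 : q = q₁ := Subtype.ext hqq'
  rw [← h8]
  exact hq

end core

section main

theorem compactSpace_of_surj {X Y : Type} [TopologicalSpace X] [TopologicalSpace Y]
    [CompactSpace X] (f : X → Y) (hf : Continuous f) (hs : Function.Surjective f) :
    CompactSpace Y := by
  rw [← isCompact_univ_iff, ← hs.range_eq]
  exact isCompact_range hf

theorem main (h1 : S_P1) (h2 : S_P2) (h3 : S_P3) (h4 : S_P4) (h5 : S_P5) (h7 : S_P7) (n : ℕ) :
    ∀ (G : Type) [Group G] [TopologicalSpace G] [IsTopologicalGroup G], lcs G (n + 1) = ⊥ →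
    ∀ (A A₁ Λ : Subgroup G) [CompactSpace (G ⧸ Λ)], A ≤ A₁ →
    (∀ a ∈ A₁, ∀ b ∈ A₁, a * b = b * a) →
    (∀ x : G, ∃ u ∈ connectedComponent (1 : G), ∃ a ∈ A₁, x = u * a) →
    Dense ((A ⊔ Λ ⊔ commutator G : Subgroup G) : Set G) →
    ∀ h : G, Dense {x : G | ∃ a ∈ A, ∃ l ∈ Λ, x = a * h * l} := by
  induction n with
  | zero =>
    intro G _ _ _ hG A A₁ Λ _ hA hcomm hdec hd h
    have hab : ∀ x y : G, x * y = y * x := by
      intro x y
      have h6 : ⁅x, y⁆ ∈ lcs G (0 + 1) :=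
        Subgroup.commutator_mem_commutator (Subgroup.mem_top _) (Subgroup.mem_top _)
      rw [hG, Subgroup.mem_bot, commutatorElement_eq_one_iff_mul_comm] at h6
      exact h6
    have hcom : commutator G = ⊥ := by
      rw [← Subgroup.top_lowerCentralSeries_one]
      exact hG
    rw [hcom, sup_bot_eq] at hd
    have hAn : A.Normal := ⟨fun a ha g => by
      rw [hab g a, mul_inv_cancel_right]
      exact ha⟩
    have e : {x : G | ∃ a ∈ A, ∃ l ∈ Λ, x = a * h * l} =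
        (fun x => h * x) '' ((A ⊔ Λ : Subgroup G) : Set G) := by
      ext x
      constructor
      · rintro ⟨a, ha, l, hl, rfl⟩
        refine ⟨a * l, Subgroup.mul_mem _ (le_sup_left (a := A) ha) (le_sup_right (a := A) hl), ?_⟩
        show h * (a * l) = a * h * l
        rw [hab a h, mul_assoc]
      · rintro ⟨y, hy, rfl⟩
        obtain ⟨a, ha, l, hl, rfl⟩ := Subgroup.mem_sup_of_normal_left.1 hy
        refine ⟨a, ha, l, hl, ?_⟩
        show h * (a * l) = a * h * l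
        rw [hab a h, mul_assoc]
    rw [e]
    exact (Homeomorph.mulLeft h).surjective.denseRange.dense_image
      (Homeomorph.mulLeft h).continuous hd
  | succ n ih =>
    intro G _ _ _ hG A A₁ Λ _ hA hcomm hdec hd h
    set C : Subgroup G := lcs G (n + 1) with hC
    have hCn : C.Normal := by
      rw [hC]
      infer_instance
    let π : G →* G ⧸ C := QuotientGroup.mk' C
    have hπs : Function.Surjective π := QuotientGroup.mk'_surjective C
    have hπc : Continuous π := QuotientGroup.continuous_mk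
    have hπo : IsOpenMap π := QuotientGroup.isOpenMap_coe
    have hbot : lcs (G ⧸ C) (n + 1) = ⊥ := by
      have h6 := (⊤ : Subgroup G).map_lowerCentralSeries π (n + 1)
      rw [Subgroup.map_top_of_surjective π hπs] at h6
      show (⊤ : Subgroup (G ⧸ C)).lowerCentralSeries (n + 1) = ⊥
      rw [← h6, Subgroup.map_eq_bot_iff]
      rw [QuotientGroup.ker_mk']
    -- the closed case
    have hclosed : ∀ Λ' : Subgroup G, Λ ≤ Λ' → IsClosed (Λ' : Set G) →
        Dense {x : G | ∃ a ∈ A, ∃ l ∈ Λ', x = a * h * l} := by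
      intro Λ' hle hcl
      have hcomp : CompactSpace (G ⧸ Λ') := by
        refine compactSpace_of_surj (Subgroup.quotientMapOfLE hle) ?_ ?_
        · exact continuous_quot_lift _ QuotientGroup.continuous_mk
        · rintro ⟨x⟩
          exact ⟨QuotientGroup.mk x, rfl⟩
      refine core h1 h2 h3 h4 h5 h7 n hG A A₁ Λ' hcl hA hcomm hdec ?_ h
      intro h'
      have hcomp2 : CompactSpace ((G ⧸ C) ⧸ (Λ'.map π)) := by
        let f : G ⧸ Λ' → (G ⧸ C) ⧸ (Λ'.map π) := Quotient.lift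
          (fun x : G => (QuotientGroup.mk (π x) : (G ⧸ C) ⧸ (Λ'.map π))) (by
            intro a b hab
            rw [QuotientGroup.eq]
            have h6 : a⁻¹ * b ∈ Λ' := QuotientGroup.leftRel_apply.1 hab
            rw [← map_inv, ← map_mul]
            exact Subgroup.mem_map_of_mem π h6)
        refine compactSpace_of_surj f ?_ ?_
        · exact continuous_quot_lift _ (QuotientGroup.continuous_mk.comp hπc)
        · rintro ⟨y⟩
          obtain ⟨x, rfl⟩ := hπs y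
          exact ⟨QuotientGroup.mk x, rfl⟩
      have h6 := ih (G ⧸ C) hbot (A.map π) (A₁.map π) (Λ'.map π) (Subgroup.map_mono hA) (by
          rintro _ ⟨a, ha, rfl⟩ _ ⟨b, hb, rfl⟩
          rw [← map_mul, hcomm a ha b hb, map_mul]) (by
          intro y
          obtain ⟨x, rfl⟩ := hπs y
          obtain ⟨u, hu, a, ha, rfl⟩ := hdec x
          refine ⟨π u, ?_, π a, Subgroup.mem_map_of_mem π ha, map_mul _ _ _⟩
          have h8 := (isPreconnected_connectedComponent (x := (1 : G))).image π hπc.continuousOn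
          have h9 := h8.subset_connectedComponent (x := (1 : G ⧸ C))
            ⟨1, mem_connectedComponent, map_one π⟩
          exact h9 ⟨u, hu, rfl⟩) (by
          have h8 := hπs.denseRange.dense_image hπc hd
          refine h8.mono ?_
          rintro _ ⟨x, hx, rfl⟩
          have h9 : (A ⊔ Λ ⊔ commutator G).map π ≤
              A.map π ⊔ Λ'.map π ⊔ commutator (G ⧸ C) := by
            rw [Subgroup.map_sup, Subgroup.map_sup]
            refine sup_le_sup (sup_le_sup le_rfl (Subgroup.map_mono hle)) ?_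
            rw [commutator_def, commutator_def, Subgroup.map_commutator]
            exact Subgroup.commutator_mono le_top le_top
          exact h9 (Subgroup.mem_map_of_mem π hx)) (π h')
      have h8 := h6.preimage hπo
      refine h8.mono ?_
      rintro x ⟨_, ⟨a, ha, rfl⟩, _, ⟨l, hl, rfl⟩, hx⟩
      rw [← map_mul, ← map_mul] at hx
      have h9 : (a * h' * l)⁻¹ * x ∈ C := (QuotientGroup.eq (s := C)).1 hx.symm
      refine ⟨a, ha, l * ((a * h' * l)⁻¹ * x), ?_, by group⟩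
      exact Subgroup.mul_mem _ (le_sup_left (b := C) hl) (le_sup_right (a := Λ') h9)
    have h6 := hclosed Λ.topologicalClosure (Subgroup.le_topologicalClosure _)
      (Subgroup.isClosed_topologicalClosure _)
    rw [← dense_closure]
    refine h6.mono ?_
    rintro _ ⟨a, ha, l, hl, rfl⟩
    refine map_mem_closure (f := fun y => a * h * y) (continuous_const_mul (a * h)) hl ?_
    intro l' hl'
    exact ⟨a, ha, l', hl', rfl⟩

theorem parry (h1 : S_P1) (h2 : S_P2) (h3 : S_P3) (h4 : S_P4) (h5 : S_P5) (h7 : S_P7) : S_P := by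
  intro G _ _ _ hnil A A₁ Λ _ hA hcomm hdec hd
  obtain ⟨n, hn⟩ := Subgroup.nilpotent_iff_lowerCentralSeries.1 hnil
  have hn1 : lcs G (n + 1) = ⊥ := by
    rw [eq_bot_iff, ← hn]
    exact (⊤ : Subgroup G).lowerCentralSeries_antitone (by omega)
  exact main h1 h2 h3 h4 h5 h7 n G hn1 A A₁ Λ hA hcomm hdec hd

end main

end Pool.Agent.Y329.NS
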